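import Pool.Agent.Lib.TTC.H.Prim

/-!
TTC, block H (Hasse on `T_2`), part 3: the function field `LL = κ(x)(ω)`, `ω ^ 2 = f(x)`, of the
curve `y ^ 2 = f(x) = x ^ 3 + a₂ x ^ 2 + a₄ x + a₆` over `k ⊆ κ`, heights of rational functions.
-/

set_option autoImplicit false

open Polynomial WeierstrassCurve
open scoped WeierstrassCurve.Affine

namespace Pool.Agent.TTC.H

section field

variable {k : Type} [Field k] (W : WeierstrassCurve k) (κ : Type) [Field κ] [Algebra k κ]

/-- the cubic -/
noncomputable def cub : κ[X] := X ^ 3 + C (algebraMap k κ W.a₂) * X ^ 2 +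
  C (algebraMap k κ W.a₄) * X + C (algebraMap k κ W.a₆)

theorem cub_natDegree : (cub W κ).natDegree = 3 := by
  have h : cub W κ = C 1 * X ^ 3 + C (algebraMap k κ W.a₂) * X ^ 2 +
    C (algebraMap k κ W.a₄) * X + C (algebraMap k κ W.a₆) := by
    rw [cub, C_1, one_mul]
  rw [h]
  exact natDegree_cubic one_ne_zero

theorem cub_ne_zero : cub W κ ≠ 0 := by
  intro h
  have := cub_natDegree W κ
  rw [h, natDegree_zero] at this
  omega

/-- the cubic in `κ(x)` -/
noncomputable def fK : RatFunc κ := algebraMap κ[X] (RatFunc κ) (cub W κ)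

theorem fK_ne_zero : fK W κ ≠ 0 := by
  intro h
  exact cub_ne_zero W κ (IsFractionRing.injective κ[X] (RatFunc κ) (h.trans (map_zero _).symm))

theorem intDegree_fK : (fK W κ).intDegree = 3 := by
  rw [fK, RatFunc.intDegree_polynomial, cub_natDegree]
  rfl

instance fact_fK : Fact (∀ r : RatFunc κ, r ^ 2 ≠ fK W κ + 0 * r) := ⟨by
  intro r h
  rw [zero_mul, add_zero] at h
  have hr : r ≠ 0 := by
    rintro rfl
    rw [zero_pow two_ne_zero] at h
    exact fK_ne_zero W κ h.symm
  have h1 := congrArg RatFunc.intDegree h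
  rw [pow_two, RatFunc.intDegree_mul hr hr, intDegree_fK] at h1
  omega⟩

/-- the function field -/
abbrev LL : Type := QuadraticAlgebra (RatFunc κ) (fK W κ) 0

noncomputable instance : DecidableEq (LL W κ) := Classical.decEq _

variable {κ}

theorem star_im_zero (h2 : (2 : κ) ≠ 0) {z : LL W κ} (h : star z = z) : z.im = 0 := by
  have h1 := congrArg QuadraticAlgebra.im h
  rw [QuadraticAlgebra.im_star] at h1
  have h2' : (2 : RatFunc κ) ≠ 0 := by
    intro h0
    apply h2
    apply (algebraMap κ (RatFunc κ)).injective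
    rw [map_ofNat, h0, map_zero]
  have h3 : 2 * z.im = 0 := by linear_combination -h1
  exact (mul_eq_zero.1 h3).resolve_left h2'

theorem star_re_zero (h2 : (2 : κ) ≠ 0) {z : LL W κ} (h : star z = -z) : z.re = 0 := by
  have h1 := congrArg QuadraticAlgebra.re h
  rw [QuadraticAlgebra.re_star, QuadraticAlgebra.re_neg] at h1
  have h2' : (2 : RatFunc κ) ≠ 0 := by
    intro h0
    apply h2
    apply (algebraMap κ (RatFunc κ)).injective
    rw [map_ofNat, h0, map_zero]
  have h3 : 2 * z.re = 0 := by linear_combination h1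
  exact (mul_eq_zero.1 h3).resolve_left h2'

theorem alg_eq (c : k) : algebraMap k (LL W κ) c = ⟨algebraMap k (RatFunc κ) c, 0⟩ := rfl

theorem algκ_eq (c : κ) : algebraMap κ (LL W κ) c = ⟨algebraMap κ (RatFunc κ) c, 0⟩ := rfl

instance : IsScalarTower k κ (RatFunc κ) := IsScalarTower.of_algebraMap_eq fun c => by
  rw [IsScalarTower.algebraMap_apply k κ[X] (RatFunc κ), IsScalarTower.algebraMap_apply κ κ[X]
    (RatFunc κ), IsScalarTower.algebraMap_apply k κ κ[X]]

instance : IsScalarTower k κ (LL W κ) := IsScalarTower.of_algebraMap_eq fun c => by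
  rw [alg_eq, algκ_eq, IsScalarTower.algebraMap_apply k κ (RatFunc κ)]

/-- the involution -/
noncomputable def inv : LL W κ →ₐ[k] LL W κ where
  toFun z := star z
  map_one' := star_one _
  map_zero' := star_zero _
  map_mul' z w := by rw [star_mul']
  map_add' z w := star_add _ _
  commutes' c := by
    change star (algebraMap k (LL W κ) c) = algebraMap k (LL W κ) c
    rw [alg_eq, QuadraticAlgebra.star_mk]
    ext <;> simp

theorem inv_apply (z : LL W κ) : inv W z = star z := rfl

/-- the cubic, evaluated in an extension of `κ` -/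
theorem aeval_cub {M : Type} [Field M] [Algebra k M] [Algebra κ M] [IsScalarTower k κ M] (x : M) :
    aeval x (cub W κ) = x ^ 3 + algebraMap k M W.a₂ * x ^ 2 + algebraMap k M W.a₄ * x +
      algebraMap k M W.a₆ := by
  simp only [cub, map_add, map_mul, map_pow, aeval_X, aeval_C, ← IsScalarTower.algebraMap_apply]

theorem fK_eq : fK W κ = RatFunc.X ^ 3 + algebraMap k (RatFunc κ) W.a₂ * RatFunc.X ^ 2 +
    algebraMap k (RatFunc κ) W.a₄ * RatFunc.X + algebraMap k (RatFunc κ) W.a₆ := by
  rw [← aeval_cub W (κ := κ) (RatFunc.X : RatFunc κ), fK]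
  have : ∀ p : κ[X], algebraMap κ[X] (RatFunc κ) p = aeval (RatFunc.X : RatFunc κ) p := by
    intro p
    rw [← RatFunc.algebraMap_X, aeval_algebraMap_apply, aeval_X_left_apply]
  exact this _

/-- equation of the curve over an extension -/
theorem eqn_iff {M : Type} [Field M] [Algebra k M] (h1 : W.a₁ = 0) (h3 : W.a₃ = 0) (x y : M) :
    (W⁄M).Equation x y ↔ y ^ 2 = x ^ 3 + algebraMap k M W.a₂ * x ^ 2 + algebraMap k M W.a₄ * x +
      algebraMap k M W.a₆ := by
  refine equation_zero (W⁄M) ?_ ?_ x y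
  · change algebraMap k M W.a₁ = 0
    rw [h1, map_zero]
  · change algebraMap k M W.a₃ = 0
    rw [h3, map_zero]

theorem negY_bc {M : Type} [Field M] [Algebra k M] (h1 : W.a₁ = 0) (h3 : W.a₃ = 0) (x y : M) :
    (W⁄M).negY x y = -y := by
  refine negY_zero (W⁄M) ?_ ?_ x y
  · change algebraMap k M W.a₁ = 0
    rw [h1, map_zero]
  · change algebraMap k M W.a₃ = 0
    rw [h3, map_zero]

instance {M : Type} [Field M] [Algebra k M] [W.IsElliptic] : (W⁄M).IsElliptic :=
  inferInstanceAs (W.map (algebraMap k M)).IsElliptic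

end field

end Pool.Agent.TTC.H
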