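import Pool.Agent.Lib.TTC.H.RedAdd
import Pool.Agent.Lib.SM.E.TwistIso

/-!
TTC, block H, reduction (3): Hasse's relation at a place of good reduction, final form.
`e_i = g ^ 2 e_i'` (`g ∈ K`, `g ≠ 0`), `e_i'` integral with unit differences (so `g = 1` at the
finite places, `g = t ^ (d / 2)` at the infinite one).
-/

set_option autoImplicit false

open WeierstrassCurve
open scoped WeierstrassCurve.Affine

namespace Pool.Agent.TTC.H

open Pool.Agent.SmithE Pool.Agent.Lib.SmD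

section final

variable {K Om : Type} [Field K] [Field Om] [Algebra K Om]

/-- the inclusion `below K w → w` -/
def bw (w : ValuationSubring Om) : below K w →+* w where
  toFun x := ⟨algebraMap K Om x, x.2⟩
  map_one' := Subtype.ext (map_one _)
  map_zero' := Subtype.ext (map_zero _)
  map_mul' _ _ := Subtype.ext (map_mul _ _ _)
  map_add' _ _ := Subtype.ext (map_add _ _ _)

instance (w : ValuationSubring Om) : IsLocalHom (bw (K := K) w) where
  map_nonunit x hx := by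
    obtain ⟨y, hy⟩ := hx.exists_right_inv
    have h1 : algebraMap K Om x * y = 1 := congrArg Subtype.val hy
    have hx0 : (x : K) ≠ 0 := by
      intro h0
      rw [h0, map_zero, zero_mul] at h1
      exact zero_ne_one h1
    have hinv : (x : K)⁻¹ ∈ below K w := by
      change algebraMap K Om (x : K)⁻¹ ∈ w
      rw [map_inv₀, ← eq_inv_of_mul_eq_one_right h1]
      exact y.2
    exact IsUnit.of_mul_eq_one ⟨(x : K)⁻¹, hinv⟩ (Subtype.ext (mul_inv_cancel₀ hx0))

variable [DecidableEq Om] {w : ValuationSubring Om} {e₁ e₂ e₃ : K}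

/-- good reduction with integral roots with unit differences -/
theorem hasse_good_one [IsSepClosed Om] {π : K} (h : LocHyp K w π) {φ : Om ≃ₐ[K] Om}
    (hφ : IsFrob K w φ) (v₁ : w.valuation (algebraMap K Om e₁) ≤ 1)
    (v₂ : w.valuation (algebraMap K Om e₂) ≤ 1) (v₃ : w.valuation (algebraMap K Om e₃) ≤ 1)
    (v₁₂ : w.valuation (algebraMap K Om (e₁ - e₂)) = 1)
    (v₁₃ : w.valuation (algebraMap K Om (e₁ - e₃)) = 1)
    (v₂₃ : w.valuation (algebraMap K Om (e₂ - e₃)) = 1) :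
    ∃ t : ℤ, t ^ 2 ≤ 4 * resCard (below K w) ∧ ∀ Q : VV Om e₁ e₂ e₃,
      φ • (φ • Q) - t • (φ • Q) + (resCard (below K w) : ℤ) • Q = 0 := by
  classical
  have := h.fin
  let _ : Fintype (IsLocalRing.ResidueField (below K w)) := Fintype.ofFinite _
  let _ : Algebra (IsLocalRing.ResidueField (below K w)) (IsLocalRing.ResidueField w) :=
    (IsLocalRing.ResidueField.map (bw (K := K) w)).toAlgebra
  have hcard : resCard (below K w) = Fintype.card (IsLocalRing.ResidueField (below K w)) :=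
    Nat.card_eq_fintype_card
  have m₁ : e₁ ∈ below K w := (ValuationSubring.valuation_le_one_iff w _).1 v₁
  have m₂ : e₂ ∈ below K w := (ValuationSubring.valuation_le_one_iff w _).1 v₂
  have m₃ : e₃ ∈ below K w := (ValuationSubring.valuation_le_one_iff w _).1 v₃
  have hr : ∀ (e : K) (m : e ∈ below K w) (x : w), (x : Om) = algebraMap K Om e →
      IsLocalRing.residue w x = algebraMap (IsLocalRing.ResidueField (below K w))
        (IsLocalRing.ResidueField w) (IsLocalRing.residue (below K w) ⟨e, m⟩) := by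
    intro e m x hx
    have e1 : x = bw w ⟨e, m⟩ := Subtype.ext hx
    rw [e1]
    rfl
  have hred : RedHyp w (IsLocalRing.residue w) e₁ e₂ e₃
      (IsLocalRing.residue (below K w) ⟨e₁, m₁⟩) (IsLocalRing.residue (below K w) ⟨e₂, m₂⟩)
      (IsLocalRing.residue (below K w) ⟨e₃, m₃⟩) :=
    { ker := fun x hx => (IsLocalRing.residue_eq_zero_iff x).2
        ((ValuationSubring.valuation_lt_one_iff w x).2 hx)
      two := h.two
      v₁ := v₁
      v₂ := v₂
      v₃ := v₃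
      v₁₂ := v₁₂
      v₁₃ := v₁₃
      v₂₃ := v₂₃
      r₁ := hr e₁ m₁
      r₂ := hr e₂ m₂
      r₃ := hr e₃ m₃ }
  obtain ⟨t, ht, h5⟩ := hred.hasse hφ.mem (fun x hx => by
    have := hφ.frob x hx
    rwa [hcard] at this)
  refine ⟨t, ?_, fun Q => ?_⟩
  · rw [hcard]
    exact ht
  · rw [hcard]
    exact h5 Q

/-- `V` of a curve and of the curve scaled by `g ^ 2` -/
theorem exists_scale (e₁ e₂ e₃ : K) {g : K} (hg : g ≠ 0) :
    ∃ T : Pt Om e₁ e₂ e₃ ≃+ Pt Om (g ^ 2 * e₁) (g ^ 2 * e₂) (g ^ 2 * e₃),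
      ∀ (s : Om ≃ₐ[K] Om) (P : Pt Om e₁ e₂ e₃), s • T P = T (s • P) := by
  have hD : g ^ 2 ≠ 0 := pow_ne_zero 2 hg
  have hd : (algebraMap K Om g) ^ 2 = algebraMap K Om (g ^ 2) := (map_pow _ _ _).symm
  exact ⟨twistEquiv e₁ e₂ e₃ hD hd, fun s P => smul_twistEquiv_of_fix hD hd (s.commutes g) P⟩

/-- **Hasse's relation at a place of good reduction.** -/
theorem hasse_good [IsSepClosed Om] {π : K} (h : LocHyp K w π) {φ : Om ≃ₐ[K] Om}
    (hφ : IsFrob K w φ) {g : K} (hg : g ≠ 0) (v₁ : w.valuation (algebraMap K Om e₁) ≤ 1)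
    (v₂ : w.valuation (algebraMap K Om e₂) ≤ 1) (v₃ : w.valuation (algebraMap K Om e₃) ≤ 1)
    (v₁₂ : w.valuation (algebraMap K Om (e₁ - e₂)) = 1)
    (v₁₃ : w.valuation (algebraMap K Om (e₁ - e₃)) = 1)
    (v₂₃ : w.valuation (algebraMap K Om (e₂ - e₃)) = 1) :
    ∃ t : ℤ, t ^ 2 ≤ 4 * resCard (below K w) ∧
      ∀ Q : VV Om (g ^ 2 * e₁) (g ^ 2 * e₂) (g ^ 2 * e₃),
        φ • (φ • Q) - t • (φ • Q) + (resCard (below K w) : ℤ) • Q = 0 := by
  obtain ⟨t, ht, h5⟩ := hasse_good_one h hφ v₁ v₂ v₃ v₁₂ v₁₃ v₂₃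
  obtain ⟨T, hT⟩ := exists_scale (Om := Om) e₁ e₂ e₃ hg
  refine ⟨t, ht, fun Q => ?_⟩
  obtain ⟨j, hj⟩ := Q.2
  have hj' : (2 ^ j) • T.symm Q.1 = 0 := by rw [← map_nsmul, hj, map_zero]
  have h6 := congrArg Subtype.val (h5 ⟨T.symm Q.1, j, hj'⟩)
  apply Subtype.ext
  have h7 := congrArg T h6
  have e1 : T (T.symm Q.1) = Q.1 := T.apply_symm_apply _
  change T (φ • (φ • T.symm Q.1) - t • (φ • T.symm Q.1) +
    (resCard (below K w) : ℤ) • T.symm Q.1) = T 0 at h7
  rw [map_add, map_sub, map_zsmul, map_zsmul, ← hT, ← hT, e1, map_zero] at h7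
  exact h7

/-- the inertia group acts trivially at a place of good reduction -/
theorem iner_good {g : K} (hg : g ≠ 0) (h2 : w.valuation (2 : Om) = 1)
    (v₁ : w.valuation (algebraMap K Om e₁) ≤ 1)
    (v₂ : w.valuation (algebraMap K Om e₂) ≤ 1) (v₃ : w.valuation (algebraMap K Om e₃) ≤ 1)
    (v₁₂ : w.valuation (algebraMap K Om (e₁ - e₂)) = 1)
    (v₁₃ : w.valuation (algebraMap K Om (e₁ - e₃)) = 1)
    (v₂₃ : w.valuation (algebraMap K Om (e₂ - e₃)) = 1) {s : Om ≃ₐ[K] Om} (hs : s ∈ iner K w)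
    (Q : VV Om (g ^ 2 * e₁) (g ^ 2 * e₂) (g ^ 2 * e₃)) : s • Q = Q := by
  obtain ⟨T, hT⟩ := exists_scale (Om := Om) e₁ e₂ e₃ hg
  obtain ⟨j, hj⟩ := Q.2
  have hj' : (2 ^ j) • T.symm Q.1 = 0 := by rw [← map_nsmul, hj, map_zero]
  have h6 := iner_fix_torsion h2 v₁ v₂ v₃ v₁₂ v₁₃ v₂₃ hs j _ hj'
  apply Subtype.ext
  have h7 := congrArg T h6
  rw [← hT, T.apply_symm_apply] at h7
  exact h7

end final

end Pool.Agent.TTC.H
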