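import Pool.Agent.Lib.TTC.H.Hasse
import Pool.Agent.Lib.SM.E.Act

/-!
TTC, block H (Hasse on `T_2`), part 9: the curve `y ^ 2 = (x - e₁) (x - e₂) (x - e₃)` over a finite
field. `F` is the Frobenius on the points over an extension `M` of `k`.
-/

set_option autoImplicit false

open WeierstrassCurve
open scoped WeierstrassCurve.Affine

namespace Pool.Agent.TTC.H

open Pool.Agent.SmithE

section crv

variable {k : Type} [Field k] {e₁ e₂ e₃ : k}

theorem crv_isElliptic (h2 : (2 : k) ≠ 0) (h12 : e₁ ≠ e₂) (h13 : e₁ ≠ e₃) (h23 : e₂ ≠ e₃) :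
    (crv e₁ e₂ e₃).IsElliptic := by
  refine ⟨?_⟩
  have h : (crv e₁ e₂ e₃).Δ = (2 * 2 * (e₁ - e₂) * (e₁ - e₃) * (e₂ - e₃)) ^ 2 := by
    simp only [WeierstrassCurve.Δ, WeierstrassCurve.b₂, WeierstrassCurve.b₄, WeierstrassCurve.b₆,
      WeierstrassCurve.b₈, crv_a₁, crv_a₃, crv_a₂, crv_a₄, crv_a₆]
    ring
  rw [h]
  exact (isUnit_iff_ne_zero.2 (mul_ne_zero (mul_ne_zero (mul_ne_zero (mul_ne_zero h2 h2)
    (sub_ne_zero.2 h12)) (sub_ne_zero.2 h13)) (sub_ne_zero.2 h23))).pow 2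

variable [Fintype k]

/-- **Hasse on torsion.** -/
theorem hasse_crv (h2 : (2 : k) ≠ 0) (h12 : e₁ ≠ e₂) (h13 : e₁ ≠ e₃) (h23 : e₂ ≠ e₃)
    (M : Type) [Field M] [DecidableEq M] [Algebra k M] :
    ∃ t : ℤ, t ^ 2 ≤ 4 * Fintype.card k ∧ ∀ P : Pt M e₁ e₂ e₃,
      (2 : ℤ) • (Affine.Point.map (FiniteField.frobeniusAlgHom k M)
        (Affine.Point.map (FiniteField.frobeniusAlgHom k M) P) -
        t • Affine.Point.map (FiniteField.frobeniusAlgHom k M) P +
        (Fintype.card k : ℤ) • P) = 0 := by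
  have := crv_isElliptic h2 h12 h13 h23
  exact hasse_two (crv e₁ e₂ e₃) rfl rfl h2 M

/-- **Hasse on torsion**, for the points `P = R + R`. -/
theorem hasse_crv_double (h2 : (2 : k) ≠ 0) (h12 : e₁ ≠ e₂) (h13 : e₁ ≠ e₃) (h23 : e₂ ≠ e₃)
    (M : Type) [Field M] [DecidableEq M] [Algebra k M] :
    ∃ t : ℤ, t ^ 2 ≤ 4 * Fintype.card k ∧ ∀ P R : Pt M e₁ e₂ e₃, P = R + R →
      Affine.Point.map (FiniteField.frobeniusAlgHom k M)
        (Affine.Point.map (FiniteField.frobeniusAlgHom k M) P) -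
        t • Affine.Point.map (FiniteField.frobeniusAlgHom k M) P +
        (Fintype.card k : ℤ) • P = 0 := by
  obtain ⟨t, ht, h⟩ := hasse_crv h2 h12 h13 h23 M
  refine ⟨t, ht, fun P R hP => ?_⟩
  rw [← h R, hP, map_add, map_add, two_zsmul]
  have h7 : (Fintype.card k : ℤ) • (R + R) = (Fintype.card k : ℤ) • R + (Fintype.card k : ℤ) • R :=
    zsmul_add _ _ _
  have h8 : t • (Affine.Point.map (FiniteField.frobeniusAlgHom k M) R +
      Affine.Point.map (FiniteField.frobeniusAlgHom k M) R) =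
      t • Affine.Point.map (FiniteField.frobeniusAlgHom k M) R +
      t • Affine.Point.map (FiniteField.frobeniusAlgHom k M) R := zsmul_add _ _ _
  rw [h7, h8]
  abel

/-- **Hasse's relation** over a separably closed field. -/
theorem hasse_crv_sep (h2 : (2 : k) ≠ 0) (h12 : e₁ ≠ e₂) (h13 : e₁ ≠ e₃) (h23 : e₂ ≠ e₃)
    (M : Type) [Field M] [DecidableEq M] [Algebra k M] [IsSepClosed M] :
    ∃ t : ℤ, t ^ 2 ≤ 4 * Fintype.card k ∧ ∀ P : Pt M e₁ e₂ e₃,
      Affine.Point.map (FiniteField.frobeniusAlgHom k M)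
        (Affine.Point.map (FiniteField.frobeniusAlgHom k M) P) -
        t • Affine.Point.map (FiniteField.frobeniusAlgHom k M) P +
        (Fintype.card k : ℤ) • P = 0 := by
  obtain ⟨t, ht, h⟩ := hasse_crv_double h2 h12 h13 h23 M
  refine ⟨t, ht, fun P => ?_⟩
  obtain ⟨R, hR⟩ := pt_exists_half h12 h13 h23 h2 P
  exact h P R hR

end crv

end Pool.Agent.TTC.H
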