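import Pool.Agent.Lib.TTC.H.Hom

/-!
TTC, block H (Hasse on `T_2`), part 8: the Frobenius. `hasse_alg`: for an elliptic curve
`W : y ^ 2 = x ^ 3 + a₂ x ^ 2 + a₄ x + a₆` over a finite field `k` with `q` elements, `2 ≠ 0`, there
is an integer `t` with `t ^ 2 ≤ 4 q` such that `2 (F ^ 2 - t F + q) = 0` on `W(κ)`.
-/

set_option autoImplicit false

open Polynomial WeierstrassCurve
open scoped WeierstrassCurve.Affine

namespace Pool.Agent.TTC.H

section frob

variable {k : Type} [Field k] [Fintype k] (W : WeierstrassCurve k)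

/-- the Frobenius on the points over an extension of `k` -/
noncomputable abbrev Fr (M : Type) [Field M] [DecidableEq M] [Algebra k M] :
    (W⁄M).Point →+ (W⁄M).Point := Affine.Point.map (FiniteField.frobeniusAlgHom k M)

theorem map_Fr {M N : Type} [Field M] [DecidableEq M] [Algebra k M] [Field N] [DecidableEq N]
    [Algebra k N] (s : M →ₐ[k] N) (P : (W⁄M).Point) :
    Affine.Point.map s (Fr W M P) = Fr W N (Affine.Point.map s P) := by
  have e : s.comp (FiniteField.frobeniusAlgHom k M) = (FiniteField.frobeniusAlgHom k N).comp s := by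
    apply AlgHom.ext
    intro x
    change s (x ^ Fintype.card k) = s x ^ Fintype.card k
    rw [map_pow]
  rw [Fr, Fr, Affine.Point.map_map, Affine.Point.map_map, e]

variable {κ : Type} [Field κ] [Algebra k κ]

theorem Fr_mem {P : (W⁄(LL W κ)).Point} (hP : P ∈ HH W) : Fr W (LL W κ) P ∈ HH W := by
  rw [mem_HH] at hP ⊢
  rw [map_Fr, hP, map_neg]

theorem dd_Fr [IsAlgClosed κ] (h1 : W.a₁ = 0) (h3 : W.a₃ = 0) (h2 : (2 : κ) ≠ 0)
    {P : (W⁄(LL W κ)).Point} (hP : P ∈ HH W) :
    dd W (Fr W (LL W κ) P) = Fintype.card k * dd W P := by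
  rcases P with _ | ⟨x, y, h⟩
  · rw [← Affine.Point.zero_def, map_zero]
    change 0 = _ * 0
    rw [mul_zero]
  obtain ⟨hx, hy⟩ := (mem_HH_some W h1 h3 h2 h).1 hP
  have h5 : x = algebraMap (RatFunc κ) (LL W κ) x.re := by
    ext
    · rfl
    · exact hx
  rw [Affine.Point.map_some]
  change ht (x ^ Fintype.card k).re = _ * ht x.re
  have h6 : (x ^ Fintype.card k).re = x.re ^ Fintype.card k := by
    have h7 : x ^ Fintype.card k = algebraMap (RatFunc κ) (LL W κ) (x.re ^ Fintype.card k) := by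
      rw [map_pow, ← h5]
    rw [h7]
    rfl
  rw [h6, ht_pow _ Fintype.card_ne_zero]

omit [Fintype k] in
/-- composition with the homomorphism `P0 ↦ Q` multiplies the degree by the degree of `Q` -/
theorem dd_comp [IsAlgClosed κ] [W.IsElliptic] (h1 : W.a₁ = 0) (h3 : W.a₃ = 0) (h2 : (2 : κ) ≠ 0)
    {Q : (W⁄(LL W κ)).Point} (hQ : Q ∈ HH W) (hQd : dd W Q ≠ 0) :
    ∃ s : LL W κ →ₐ[k] LL W κ, Affine.Point.map s (P0 W κ h1 h3) = Q ∧
      ∀ R ∈ HH W, dd W (Affine.Point.map s R) = dd W R * dd W Q := by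
  rcases Q with _ | ⟨x, y, h⟩
  · exact absurd rfl hQd
  obtain ⟨hx, hy⟩ := (mem_HH_some W h1 h3 h2 h).1 hQ
  have h5 : x = algebraMap (RatFunc κ) (LL W κ) x.re := by
    ext
    · rfl
    · exact hx
  have hxc : ∀ c : κ, algebraMap κ (RatFunc κ) c ≠ x.re := by
    intro c hc
    apply hQd
    change ht x.re = 0
    rw [← hc]
    change ht (RatFunc.C c) = 0
    rw [ht, RatFunc.num_C, RatFunc.denom_C]
    simp
  have hxc' : ∀ c : κ, algebraMap κ (LL W κ) c ≠ x := by
    intro c hc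
    exact hxc c (congrArg QuadraticAlgebra.re hc)
  obtain ⟨s, hs1, hs2⟩ := exists_hom W h1 h3 h hxc'
  refine ⟨s.restrictScalars k, hs1, fun R hR => ?_⟩
  rcases R with _ | ⟨u, v, hR'⟩
  · rw [← Affine.Point.zero_def, map_zero]
    change 0 = 0 * _
    rw [zero_mul]
  obtain ⟨hu, hv⟩ := (mem_HH_some W h1 h3 h2 hR').1 hR
  have hu5 : u = ⟨u.re, 0⟩ := by
    ext
    · rfl
    · exact hu
  rw [Affine.Point.map_some]
  change ht (s u).re = ht u.re * ht x.re
  have h6 : s u = algebraMap (RatFunc κ) (LL W κ)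
      (aeval x.re u.re.num / aeval x.re u.re.denom) := by
    have h7 := hs2 u.re
    rw [← hu5, h5, aeval_algebraMap_apply, aeval_algebraMap_apply, ← map_div₀] at h7
    exact h7
  rw [h6]
  exact ht_comp _ _ (inj_aeval hxc)

/-- **Hasse on torsion**, over an algebraically closed field. -/
theorem hasse_alg [IsAlgClosed κ] [DecidableEq κ] [W.IsElliptic] (h1 : W.a₁ = 0) (h3 : W.a₃ = 0)
    (h2 : (2 : κ) ≠ 0) : ∃ t : ℤ, t ^ 2 ≤ 4 * Fintype.card k ∧ ∀ P : (W⁄κ).Point,
      (2 : ℤ) • (Fr W κ (Fr W κ P) - t • Fr W κ P + (Fintype.card k : ℤ) • P) = 0 := by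
  set q := Fintype.card k with hq
  have hq1 : 1 < q := Fintype.one_lt_card
  set d : HH (κ := κ) W → ℤ := fun P => (dd W P.1 : ℤ) with hd
  have hpar : ParL d := fun P Q => by
    have := parallelogram W h1 h3 h2 P.2 Q.2
    simp only [hd, AddSubgroup.coe_add, AddSubgroup.coe_sub]
    exact_mod_cast this
  have hnn : ∀ P, 0 ≤ d P := fun P => Int.natCast_nonneg _
  set Φ := Fr W (LL W κ) with hΦ
  set g := P0 W κ h1 h3 with hg
  have hgm : g ∈ HH W := P0_mem W h1 h3 h2
  set p0 : HH (κ := κ) W := ⟨g, hgm⟩ with hp0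
  set p1 : HH (κ := κ) W := ⟨Φ g, Fr_mem W hgm⟩ with hp1
  set p2 : HH (κ := κ) W := ⟨Φ (Φ g), Fr_mem W (Fr_mem W hgm)⟩ with hp2
  have d0 : d p0 = 1 := by
    simp only [hd, hp0]
    rw [dd_P0]
    rfl
  have d1 : d p1 = q := by
    simp only [hd, hp1]
    rw [dd_Fr W h1 h3 h2 hgm, dd_P0, mul_one]
  have d2 : d p2 = q ^ 2 := by
    simp only [hd, hp2]
    rw [dd_Fr W h1 h3 h2 (Fr_mem W hgm), dd_Fr W h1 h3 h2 hgm, dd_P0, mul_one]
    push_cast
    ring
  set t := pol d p1 p0 with ht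
  have ht2 : t ^ 2 ≤ 4 * q := by
    have h5 := hpar.two p1 p0 2 (-t)
    have h6 := hnn ((2 : ℤ) • p1 + (-t) • p0)
    rw [h5, d0, d1, ← ht] at h6
    nlinarith
  have h21 : pol d p2 p1 = q * t := by
    have h5 : d (p2 + p1) = q * d (p1 + p0) := by
      have e : Φ (Φ g) + Φ g = Φ (Φ g + g) := by rw [map_add]
      simp only [hd, AddSubgroup.coe_add, hp2, hp1, hp0]
      rw [e, dd_Fr W h1 h3 h2 (add_mem (Fr_mem W hgm) hgm)]
      push_cast
      ring
    rw [pol, h5, d2, d1, ht, pol, d1, d0]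
    ring
  have hm : d (p1 - p0) = q + 1 - t := by
    have h5 := hpar.two p1 p0 1 (-1)
    have e : (1 : ℤ) • p1 + (-1 : ℤ) • p0 = p1 - p0 := by
      rw [one_zsmul, neg_one_zsmul, sub_eq_add_neg]
    rw [e, d1, d0, ← ht] at h5
    rw [h5]
    ring
  have hpl : d (p1 + p0) = q + 1 + t := by
    have : pol d p1 p0 = d (p1 + p0) - d p1 - d p0 := rfl
    rw [← ht, d1, d0] at this
    linarith
  have hpos : q + 1 - t ≠ 0 := by
    intro h
    have : t = q + 1 := by linarith
    rw [this] at ht2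
    nlinarith
  have h20 : pol d p2 p0 = t ^ 2 - 2 * q := by
    have hQ : Φ g - g ∈ HH W := sub_mem (Fr_mem W hgm) hgm
    have hQd : dd W (Φ g - g) ≠ 0 := by
      intro h
      apply hpos
      rw [← hm]
      simp only [hd, AddSubgroup.coe_sub, hp1, hp0]
      rw [h]
      rfl
    obtain ⟨s, hs1, hs2⟩ := dd_comp W h1 h3 h2 hQ hQd
    have hR : Φ g + g ∈ HH W := add_mem (Fr_mem W hgm) hgm
    have h5 := hs2 _ hR
    have e : Affine.Point.map s (Φ g + g) = Φ (Φ g) - g := by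
      rw [map_add, hΦ, map_Fr, hs1, map_sub]
      abel
    rw [e] at h5
    have h6 : d (p2 - p0) = d (p1 + p0) * d (p1 - p0) := by
      simp only [hd, AddSubgroup.coe_sub, AddSubgroup.coe_add, hp2, hp1, hp0]
      rw [h5]
      push_cast
      rfl
    have h7 := hpar.two p2 p0 1 (-1)
    have e7 : (1 : ℤ) • p2 + (-1 : ℤ) • p0 = p2 - p0 := by
      rw [one_zsmul, neg_one_zsmul, sub_eq_add_neg]
    rw [e7, h6, hpl, hm, d2, d0] at h7
    linear_combination h7
  have hZ : d ((1 : ℤ) • p2 + (-t) • p1 + (q : ℤ) • p0) = 0 := by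
    rw [hpar.three, d0, d1, d2, h21, h20, ← ht]
    ring
  -- the relation for the generic point
  have hgen : (2 : ℤ) • (Φ (Φ g) - t • Φ g + (q : ℤ) • g) = 0 := by
    have h5 := two_of_dd W h1 h3 h2 ((1 : ℤ) • p2 + (-t) • p1 + (q : ℤ) • p0).2
      (Int.natCast_eq_zero.1 hZ)
    have e : (((1 : ℤ) • p2 + (-t) • p1 + (q : ℤ) • p0 : HH (κ := κ) W) : (W⁄(LL W κ)).Point) =
        Φ (Φ g) - t • Φ g + (q : ℤ) • g := by
      simp only [AddSubgroup.coe_add, AddSubgroup.coe_zsmul, hp0, hp1, hp2]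
      rw [one_zsmul, neg_zsmul, sub_eq_add_neg]
    rw [e, ← two_zsmul] at h5
    exact h5
  refine ⟨t, ht2, fun P => ?_⟩
  -- the embedding of the constant points
  set j : (W⁄κ).Point →+ (W⁄(LL W κ)).Point :=
    Affine.Point.map (IsScalarTower.toAlgHom k κ (LL W κ)) with hj
  have hjinj : Function.Injective j := Affine.Point.map_injective _
  have hjF : ∀ Q, j (Fr W κ Q) = Φ (j Q) := fun Q => map_Fr W _ Q
  -- the point `g + j P` has a non-constant `x`-coordinate
  have hgj : ∀ Q : (W⁄κ).Point, g ≠ j Q := by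
    intro Q h
    rcases Q with _ | ⟨x, y, hxy⟩
    · rw [← Affine.Point.zero_def, map_zero, hg, P0] at h
      exact Affine.Point.some_ne_zero _ h
    · rw [hj, Affine.Point.map_some, hg, P0, Affine.Point.some.injEq] at h
      have h5 := congrArg QuadraticAlgebra.re h.1
      change RatFunc.X = RatFunc.C x at h5
      have h6 := congrArg RatFunc.intDegree h5
      rw [RatFunc.intDegree_X, RatFunc.intDegree_C] at h6
      omega
  have key : ∃ s : LL W κ →ₐ[κ] LL W κ,
      Affine.Point.map (s.restrictScalars k) g = g + j P := by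
    rcases hR : g + j P with _ | ⟨x, y, hxy⟩
    · exfalso
      apply hgj (-P)
      rw [map_neg]
      exact eq_neg_of_add_eq_zero_left hR
    · have hx : ∀ c : κ, algebraMap κ (LL W κ) c ≠ x := by
        intro c hc
        have hE := (eqn_iff W h1 h3 x y).1 hxy.1
        have hE2 : y ^ 2 = algebraMap κ (LL W κ) (aeval c (cub W κ)) := by
          rw [hE, ← hc, ← aeval_cub W (κ := κ), aeval_algebraMap_apply]
        obtain ⟨b, hb⟩ := IsAlgClosed.exists_pow_nat_eq (aeval c (cub W κ)) (n := 2) (by norm_num)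
        have hyb : y = algebraMap κ (LL W κ) b ∨ y = algebraMap κ (LL W κ) (-b) := by
          rw [map_neg]
          apply sq_eq_sq_iff_eq_or_eq_neg.1
          rw [hE2, ← hb, map_pow]
        obtain ⟨b', hb', hb2⟩ : ∃ b' : κ, y = algebraMap κ (LL W κ) b' ∧
            b' ^ 2 = aeval c (cub W κ) := by
          rcases hyb with h | h
          · exact ⟨b, h, hb⟩
          · exact ⟨-b, h, by rw [neg_sq, hb]⟩
        have hns : (W⁄κ).Nonsingular c b' := by
          rw [← Affine.equation_iff_nonsingular, eqn_iff W h1 h3, hb2, aeval_cub]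
        have hR2 : g + j P = j (.some c b' hns) := by
          rw [hR, hj, Affine.Point.map_some, Affine.Point.some.injEq]
          exact ⟨hc.symm, hb'⟩
        apply hgj (.some c b' hns - P)
        rw [map_sub, ← hR2]
        abel
      obtain ⟨s, hs, -⟩ := exists_hom W h1 h3 hxy hx
      exact ⟨s, hs⟩
  obtain ⟨s, hs⟩ := key
  have h5 := congrArg (Affine.Point.map (s.restrictScalars k)) hgen
  rw [map_zero, map_zsmul, map_add, map_sub, map_zsmul, map_zsmul, hΦ, map_Fr, map_Fr, hs,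
    ← hΦ] at h5
  apply hjinj
  rw [map_zero, map_zsmul, map_add, map_sub, map_zsmul, map_zsmul, hjF, hjF]
  have h6 : (2 : ℤ) • (Φ (Φ (j P)) - t • Φ (j P) + (q : ℤ) • j P) =
      (2 : ℤ) • (Φ (Φ (g + j P)) - t • Φ (g + j P) + (q : ℤ) • (g + j P)) -
      (2 : ℤ) • (Φ (Φ g) - t • Φ g + (q : ℤ) • g) := by
    have h7 : (q : ℤ) • (g + j P) = (q : ℤ) • g + (q : ℤ) • j P := zsmul_add _ _ _
    have h8 : t • (Φ g + Φ (j P)) = t • Φ g + t • Φ (j P) := zsmul_add _ _ _
    rw [map_add, map_add, ← smul_sub, h7, h8]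
    congr 1
    abel
  rw [h6, h5, hgen, sub_zero]

/-- **Hasse on torsion.** -/
theorem hasse_two [W.IsElliptic] (h1 : W.a₁ = 0) (h3 : W.a₃ = 0) (h2 : (2 : k) ≠ 0)
    (M : Type) [Field M] [DecidableEq M] [Algebra k M] :
    ∃ t : ℤ, t ^ 2 ≤ 4 * Fintype.card k ∧ ∀ P : (W⁄M).Point,
      (2 : ℤ) • (Fr W M (Fr W M P) - t • Fr W M P + (Fintype.card k : ℤ) • P) = 0 := by
  classical
  let N := AlgebraicClosure M
  have h2N : (2 : N) ≠ 0 := by
    intro h
    apply h2
    apply (algebraMap k N).injective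
    rw [map_ofNat, h, map_zero]
  obtain ⟨t, ht, h⟩ := hasse_alg W (κ := N) h1 h3 h2N
  refine ⟨t, ht, fun P => ?_⟩
  apply Affine.Point.map_injective (W' := W) (IsScalarTower.toAlgHom k M N)
  rw [map_zero, map_zsmul, map_add, map_sub, map_zsmul, map_zsmul, map_Fr, map_Fr]
  exact h _

end frob

end Pool.Agent.TTC.H
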