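import Mathlib

/-!
TTC, block H (Hasse on `T_2`), part 6: functions with the parallelogram law are quadratic forms.
-/

set_option autoImplicit false

namespace Pool.Agent.TTC.H

section quad

variable {A : Type} [AddCommGroup A]

/-- the parallelogram law -/
def ParL (d : A → ℤ) : Prop := ∀ x y, d (x + y) + d (x - y) = 2 * (d x + d y)

/-- the polar form -/
def pol (d : A → ℤ) (x y : A) : ℤ := d (x + y) - d x - d y

variable {d : A → ℤ}

theorem pol_comm (x y : A) : pol d x y = pol d y x := by
  rw [pol, pol, add_comm x y]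
  ring

theorem ParL.zero (h : ParL d) : d 0 = 0 := by
  have := h 0 0
  rw [add_zero, sub_zero] at this
  omega

theorem ParL.neg (h : ParL d) (x : A) : d (-x) = d x := by
  have h1 := h 0 x
  rw [zero_add, zero_sub, h.zero] at h1
  omega

theorem ParL.pol_add (h : ParL d) (x y z : A) : pol d (x + y) z = pol d x z + pol d y z := by
  have h1 := h (x + y) z
  have h2 := h x (y - z)
  have h3 := h (x + z) y
  have h4 := h y z
  have e1 : x + (y - z) = x + y - z := by abel
  have e2 : x - (y - z) = x + z - y := by abel
  have e3 : x + z + y = x + y + z := by abel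
  rw [e1, e2] at h2
  rw [e3] at h3
  simp only [pol]
  omega

/-- the polar form as a homomorphism -/
def ParL.hom (h : ParL d) (z : A) : A →+ ℤ :=
  AddMonoidHom.mk' (fun x => pol d x z) fun x y => h.pol_add x y z

theorem ParL.pol_zsmul (h : ParL d) (n : ℤ) (x z : A) : pol d (n • x) z = n * pol d x z := by
  have := map_zsmul (h.hom z) n x
  simpa [ParL.hom] using this

theorem ParL.pol_zsmul' (h : ParL d) (n : ℤ) (x z : A) : pol d x (n • z) = n * pol d x z := by
  rw [pol_comm, h.pol_zsmul, pol_comm]

theorem ParL.pol_add' (h : ParL d) (x y z : A) : pol d x (y + z) = pol d x y + pol d x z := by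
  rw [pol_comm, h.pol_add, pol_comm y, pol_comm z]

theorem ParL.pol_self (h : ParL d) (x : A) : pol d x x = 2 * d x := by
  have h1 := h x x
  rw [sub_self, h.zero] at h1
  rw [pol]
  omega

theorem ParL.pol_neg (h : ParL d) (x z : A) : pol d (-x) z = -pol d x z := by
  have := h.pol_zsmul (-1) x z
  rw [neg_one_zsmul] at this
  rw [this]
  ring

theorem ParL.pol_neg' (h : ParL d) (x z : A) : pol d x (-z) = -pol d x z := by
  rw [pol_comm, h.pol_neg, pol_comm]

/-- the value at a combination of two elements -/
theorem ParL.two (h : ParL d) (a b : A) (m n : ℤ) :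
    d (m • a + n • b) = m ^ 2 * d a + n ^ 2 * d b + m * n * pol d a b := by
  have h1 := h.pol_self (m • a + n • b)
  rw [h.pol_add, h.pol_add', h.pol_add', h.pol_zsmul, h.pol_zsmul', h.pol_zsmul, h.pol_zsmul',
    h.pol_zsmul, h.pol_zsmul', h.pol_zsmul, h.pol_zsmul', h.pol_self, h.pol_self,
    pol_comm b a] at h1
  linarith

/-- the value at a combination of three elements -/
theorem ParL.three (h : ParL d) (a b c : A) (l m n : ℤ) :
    d (l • a + m • b + n • c) = l ^ 2 * d a + m ^ 2 * d b + n ^ 2 * d c + l * m * pol d a b +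
      l * n * pol d a c + m * n * pol d b c := by
  have h1 := h.two (l • a + m • b) c 1 n
  rw [one_zsmul, h.pol_add, h.pol_zsmul, h.pol_zsmul, h.two] at h1
  rw [h1]
  ring

end quad

end Pool.Agent.TTC.H
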