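import Pool.Agent.Lib.TTC.H.Ht
import Pool.Agent.Lib.TTC.H.Quad

/-!
TTC, block H (Hasse on `T_2`), part 7: homomorphisms out of the function field, the generic point.
-/

set_option autoImplicit false

open Polynomial WeierstrassCurve
open scoped WeierstrassCurve.Affine

namespace Pool.Agent.TTC.H

section hom

variable {κ : Type} [Field κ] {M : Type} [Field M] [Algebra κ M]

theorem inj_aeval [IsAlgClosed κ] {x : M} (hx : ∀ c : κ, algebraMap κ M c ≠ x) :
    Function.Injective (aeval x : κ[X] →ₐ[κ] M) := by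
  rw [injective_iff_map_eq_zero]
  intro p hp
  by_contra hp0
  have hint : IsIntegral κ x := isAlgebraic_iff_isIntegral.1 ⟨p, hp0, hp⟩
  have h1 := IsAlgClosed.degree_eq_one_of_irreducible κ (minpoly.irreducible hint)
  obtain ⟨c, hc⟩ := minpoly.mem_range_of_degree_eq_one κ x h1
  exact hx c hc

variable (x : M) (hx : Function.Injective (aeval x : κ[X] →ₐ[κ] M))

/-- the homomorphism `κ(x) → M` -/
noncomputable def mkR : RatFunc κ →ₐ[κ] M :=
  RatFunc.liftAlgHom (aeval x) (nonZeroDivisors_le_comap_nonZeroDivisors_of_injective _ hx)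

theorem mkR_apply (g : RatFunc κ) : mkR x hx g = aeval x g.num / aeval x g.denom :=
  RatFunc.liftAlgHom_apply _ _ _

theorem mkR_poly (p : κ[X]) : mkR x hx (algebraMap κ[X] (RatFunc κ) p) = aeval x p := by
  have := RatFunc.liftAlgHom_apply_div (aeval x)
    (nonZeroDivisors_le_comap_nonZeroDivisors_of_injective _ hx) p 1
  rw [map_one, div_one, map_one, div_one] at this
  exact this

theorem mkR_X : mkR x hx RatFunc.X = x := by
  rw [← RatFunc.algebraMap_X, mkR_poly, aeval_X]

variable {k : Type} [Field k] (W : WeierstrassCurve k) [Algebra k κ] (y : M)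
  (hy : y ^ 2 = aeval x (cub W κ))

/-- the homomorphism `LL → M` -/
noncomputable def mkL : LL W κ →ₐ[κ] M where
  toFun z := mkR x hx z.re + mkR x hx z.im * y
  map_one' := by
    change mkR x hx 1 + mkR x hx 0 * y = 1
    rw [map_zero, zero_mul, add_zero, map_one]
  map_zero' := by
    change mkR x hx 0 + mkR x hx 0 * y = 0
    rw [map_zero, zero_mul, add_zero]
  map_add' z w := by
    simp only [QuadraticAlgebra.re_add, QuadraticAlgebra.im_add, map_add]
    ring
  map_mul' z w := by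
    have hf : mkR x hx (fK W κ) = y ^ 2 := by rw [fK, mkR_poly, hy]
    simp only [QuadraticAlgebra.re_mul, QuadraticAlgebra.im_mul, map_add, map_mul, map_zero, hf]
    ring
  commutes' c := by
    change mkR x hx (algebraMap κ (RatFunc κ) c) + mkR x hx 0 * y = _
    rw [map_zero, zero_mul, add_zero, AlgHom.commutes]

theorem mkL_re (g : RatFunc κ) : mkL x hx W y hy ⟨g, 0⟩ = mkR x hx g := by
  change mkR x hx g + mkR x hx 0 * y = _
  simp

theorem mkL_gen : mkL x hx W y hy ⟨RatFunc.X, 0⟩ = x := by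
  rw [mkL_re, mkR_X]

theorem mkL_omega : mkL x hx W y hy ⟨0, 1⟩ = y := by
  change mkR x hx 0 + mkR x hx 1 * y = _
  simp

end hom

section gen

variable {k : Type} [Field k] (W : WeierstrassCurve k) (κ : Type) [Field κ] [Algebra k κ]

theorem ns_gen [W.IsElliptic] (h1 : W.a₁ = 0) (h3 : W.a₃ = 0) :
    (W⁄(LL W κ)).Nonsingular ⟨RatFunc.X, 0⟩ ⟨0, 1⟩ := by
  rw [← Affine.equation_iff_nonsingular, eqn_iff W h1 h3]
  have e1 : (⟨0, 1⟩ : LL W κ) ^ 2 = algebraMap (RatFunc κ) (LL W κ) (fK W κ) := by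
    rw [pow_two]
    ext <;> simp
  have e2 : (⟨RatFunc.X, 0⟩ : LL W κ) = algebraMap (RatFunc κ) (LL W κ) RatFunc.X := rfl
  have e3 := congrArg (algebraMap (RatFunc κ) (LL W κ)) (fK_eq W (κ := κ))
  rw [e1, e2, e3]
  simp only [map_add, map_mul, map_pow, ← IsScalarTower.algebraMap_apply]

/-- the generic point -/
noncomputable def P0 [W.IsElliptic] (h1 : W.a₁ = 0) (h3 : W.a₃ = 0) : (W⁄(LL W κ)).Point :=
  .some _ _ (ns_gen W κ h1 h3)

variable {κ}

theorem P0_mem [W.IsElliptic] (h1 : W.a₁ = 0) (h3 : W.a₃ = 0) (h2 : (2 : κ) ≠ 0) :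
    P0 W κ h1 h3 ∈ HH W :=
  (mem_HH_some W h1 h3 h2 _).2 ⟨rfl, rfl⟩

theorem dd_P0 [W.IsElliptic] (h1 : W.a₁ = 0) (h3 : W.a₃ = 0) : dd W (P0 W κ h1 h3) = 1 := by
  change ht (RatFunc.X : RatFunc κ) = 1
  rw [ht, RatFunc.num_X, RatFunc.denom_X]
  simp

/-- the homomorphism which maps the generic point to a given point with non-constant `x` -/
theorem exists_hom [IsAlgClosed κ] [W.IsElliptic] (h1 : W.a₁ = 0) (h3 : W.a₃ = 0)
    {M : Type} [Field M] [DecidableEq M] [Algebra κ M] [Algebra k M] [IsScalarTower k κ M]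
    {x y : M} (h : (W⁄M).Nonsingular x y) (hx : ∀ c : κ, algebraMap κ M c ≠ x) :
    ∃ s : LL W κ →ₐ[κ] M,
      Affine.Point.map (s.restrictScalars k) (P0 W κ h1 h3) = Affine.Point.some x y h ∧
      ∀ g : RatFunc κ, s ⟨g, 0⟩ = aeval x g.num / aeval x g.denom := by
  have hxi := inj_aeval hx
  have hy : y ^ 2 = aeval x (cub W κ) := by
    rw [aeval_cub]
    exact (eqn_iff W h1 h3 x y).1 h.1
  refine ⟨mkL x hxi W y hy, ?_, fun g => ?_⟩
  · rw [P0, Affine.Point.map_some, Affine.Point.some.injEq]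
    exact ⟨mkL_gen x hxi W y hy, mkL_omega x hxi W y hy⟩
  · rw [mkL_re, mkR_apply]

/-- degree `0` means constant `x`-coordinate, so a `2`-torsion point -/
theorem two_of_dd [W.IsElliptic] [IsAlgClosed κ] (h1 : W.a₁ = 0) (h3 : W.a₃ = 0)
    (h2 : (2 : κ) ≠ 0) {P : (W⁄(LL W κ)).Point} (hP : P ∈ HH W) (hd : dd W P = 0) :
    P + P = 0 := by
  rcases P with _ | ⟨x, y, h⟩
  · rfl
  obtain ⟨hx, hy⟩ := (mem_HH_some W h1 h3 h2 h).1 hP
  have hy0 : y = 0 := by
    have hyr : y.im = 0 := by
      by_contra hr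
      have hd' : max x.re.num.natDegree x.re.denom.natDegree = 0 := hd
      have hn : x.re.num.natDegree = 0 := by omega
      have hdn : x.re.denom.natDegree = 0 := by omega
      have hgc : ∃ c : κ, x.re = algebraMap κ (RatFunc κ) c := by
        rw [natDegree_eq_zero] at hn hdn
        obtain ⟨a, ha⟩ := hn
        obtain ⟨b, hb⟩ := hdn
        refine ⟨a / b, ?_⟩
        rw [← RatFunc.num_div_denom x.re, ← ha, ← hb, map_div₀]
        rfl
      obtain ⟨c, hc⟩ := hgc
      have hE := (eqn_iff W h1 h3 x y).1 h.1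
      have hx' : x = algebraMap κ (LL W κ) c := by
        rw [algκ_eq]
        ext
        · exact hc
        · exact hx
      have hE2 : y ^ 2 = algebraMap κ (LL W κ) (aeval c (cub W κ)) := by
        rw [hE, hx', ← aeval_cub W (κ := κ), aeval_algebraMap_apply]
      have hre := congrArg QuadraticAlgebra.re hE2
      have hy2 : (y ^ 2).re = fK W κ * (y.im * y.im) := by
        rw [pow_two, QuadraticAlgebra.re_mul, hy]
        ring
      rw [hy2] at hre
      have hE3 : (algebraMap κ (LL W κ) (aeval c (cub W κ))).re =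
        algebraMap κ (RatFunc κ) (aeval c (cub W κ)) := rfl
      rw [hE3] at hre
      have h5 := congrArg RatFunc.intDegree hre
      rw [RatFunc.intDegree_mul (fK_ne_zero W κ) (mul_ne_zero hr hr),
        RatFunc.intDegree_mul hr hr, intDegree_fK] at h5
      have h6 : (algebraMap κ (RatFunc κ) (aeval c (cub W κ))).intDegree = 0 :=
        RatFunc.intDegree_C _
      rw [h6] at h5
      omega
    ext
    · exact hy
    · exact hyr
  apply Affine.Point.add_self_of_Y_eq
  rw [negY_bc W h1 h3, hy0, neg_zero]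

end gen

end Pool.Agent.TTC.H
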