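import Pool.Agent.Lib.TTC.H.Par

/-!
TTC, block H (Hasse on `T_2`), part 5: heights of compositions and of powers of rational functions.
-/

set_option autoImplicit false

open Polynomial

namespace Pool.Agent.TTC.H

section hm

/-- the homogenized value -/
def hv {R : Type} [CommRing R] (n : ℕ) (G : ℕ → R) (a b : R) : R :=
  ∑ i ∈ Finset.range (n + 1), G i * a ^ i * b ^ (n - i)

variable {κ : Type} [Field κ]

theorem hv_ne (n : ℕ) (G : κ[X]) (hG : G.natDegree ≤ n) {a b : κ} (hb : b ≠ 0) :
    hv n G.coeff a b = b ^ n * G.eval (a / b) := by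
  rw [eval_eq_sum_range' (Nat.lt_succ_of_le hG), hv, Finset.mul_sum]
  refine Finset.sum_congr rfl fun i hi => ?_
  have hi' : i ≤ n := Nat.lt_succ_iff.1 (Finset.mem_range.1 hi)
  have e : b ^ n = b ^ i * b ^ (n - i) := by rw [← pow_add, Nat.add_sub_cancel' hi']
  rw [e, div_pow]
  field_simp

theorem hv_zero (n : ℕ) (G : ℕ → κ) (a : κ) : hv n G a 0 = G n * a ^ n := by
  rw [hv, Finset.sum_range_succ, Finset.sum_eq_zero]
  · simp
  · intro i hi
    have hi' : i < n := Finset.mem_range.1 hi
    rw [zero_pow (by omega), mul_zero]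

/-- no common zero -/
theorem hv_ne_zero {n : ℕ} {v : Fin 2 → κ[X]} (hv1 : Prim v) (hv2 : HDeg v n) {p : Fin 2 → κ}
    (hp : p ≠ 0) : (fun i => hv n (v i).coeff (p 0) (p 1)) ≠ 0 := by
  intro h
  by_cases hb : p 1 = 0
  · have ha : p 0 ≠ 0 := by
      intro ha
      apply hp
      funext i
      fin_cases i
      · exact ha
      · exact hb
    apply hv2.2
    funext i
    have h1 := congrFun h i
    simp only [hb, hv_zero, Pi.zero_apply, mul_eq_zero] at h1
    exact h1.resolve_right (pow_ne_zero _ ha)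
  · apply hv1 (p 0 / p 1)
    funext i
    have h1 := congrFun h i
    simp only [hv_ne n (v i) (hv2.1 i) hb, Pi.zero_apply, mul_eq_zero] at h1
    exact h1.resolve_left (pow_ne_zero _ hb)

/-- the homogenized composition -/
noncomputable def hc (n : ℕ) (v : Fin 2 → κ[X]) (u : Fin 2 → κ[X]) : Fin 2 → κ[X] :=
  fun i => hv n (fun j => C ((v i).coeff j)) (u 0) (u 1)

theorem Prim.hc {n : ℕ} {v u : Fin 2 → κ[X]} (hv1 : Prim v) (hv2 : HDeg v n) (hu : Prim u) :
    Prim (hc n v u) := by
  intro r h
  apply hv_ne_zero hv1 hv2 (hu r)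
  funext i
  have h1 := congrFun h i
  simp only [H.hc, hv, eval_finsetSum, eval_mul, eval_C, eval_pow, Pi.zero_apply] at h1
  exact h1

theorem HDeg.hc {n m : ℕ} {v u : Fin 2 → κ[X]} (hv1 : Prim v) (hv2 : HDeg v n) (hu : HDeg u m) :
    HDeg (hc n v u) (n * m) := by
  have hdeg : ∀ (c : κ) (i : ℕ), i ≤ n →
      (C c * u 0 ^ i * u 1 ^ (n - i)).natDegree ≤ n * m ∧
      (C c * u 0 ^ i * u 1 ^ (n - i)).coeff (n * m) =
        c * (u 0).coeff m ^ i * (u 1).coeff m ^ (n - i) := by
    intro c i hi
    have e : n * m = i * m + (n - i) * m := by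
      rw [← Nat.add_mul, Nat.add_sub_cancel' hi]
    have h0 : (u 0 ^ i).natDegree ≤ i * m :=
      natDegree_pow_le.trans (Nat.mul_le_mul_left _ (hu.1 0))
    have h1 : (u 1 ^ (n - i)).natDegree ≤ (n - i) * m :=
      natDegree_pow_le.trans (Nat.mul_le_mul_left _ (hu.1 1))
    have h0' : (C c * u 0 ^ i).natDegree ≤ i * m := (natDegree_C_mul_le _ _).trans h0
    constructor
    · rw [e]
      exact natDegree_mul_le_of_le h0' h1
    · rw [e, coeff_mul_add_eq_of_natDegree_le h0' h1, coeff_C_mul,
        coeff_pow_of_natDegree_le (hu.1 0), coeff_pow_of_natDegree_le (hu.1 1)]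
  constructor
  · intro i
    simp only [H.hc, hv]
    refine natDegree_sum_le_of_forall_le _ _ fun j hj => ?_
    exact (hdeg _ j (Nat.lt_succ_iff.1 (Finset.mem_range.1 hj))).1
  · intro h
    apply hv_ne_zero hv1 hv2 hu.2
    funext i
    have h1 := congrFun h i
    simp only [H.hc, hv, finsetSum_coeff, Pi.zero_apply] at h1
    rw [Finset.sum_congr rfl fun j hj =>
      (hdeg _ j (Nat.lt_succ_iff.1 (Finset.mem_range.1 hj))).2] at h1
    exact h1

end hm

section rat

variable {κ : Type} [Field κ]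

/-- the height from any coprime representation -/
theorem ht_of [IsAlgClosed κ] {g : RatFunc κ} {v : Fin 2 → κ[X]} {n : ℕ} (hv1 : Prim v)
    (hv2 : HDeg v n)
    (h : algebraMap κ[X] (RatFunc κ) (v 0) = g * algebraMap κ[X] (RatFunc κ) (v 1)) :
    ht g = n := by
  have hd : algebraMap κ[X] (RatFunc κ) g.denom ≠ 0 := fun h0 => g.denom_ne_zero
    (IsFractionRing.injective κ[X] (RatFunc κ) (h0.trans (map_zero _).symm))
  have h1 := RatFunc.num_div_denom g
  rw [div_eq_iff hd] at h1
  have h2 : v 0 * g.denom = v 1 * g.num := by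
    apply IsFractionRing.injective κ[X] (RatFunc κ)
    rw [map_mul, map_mul, h, h1]
    ring
  obtain ⟨c, hc, h3⟩ := prop_of (prim_nd g) hv1 (by
    intro i j
    fin_cases i <;> fin_cases j
    · rfl
    · simp only [Fin.zero_eta, Fin.mk_one, Matrix.cons_val_zero, Matrix.cons_val_one]
      linear_combination -h2
    · simp only [Fin.zero_eta, Fin.mk_one, Matrix.cons_val_zero, Matrix.cons_val_one]
      linear_combination h2
    · rfl)
  exact (hdeg_nd g).unique (hv2.C_mul hc h3)

/-- the value of a polynomial at a rational function -/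
theorem aeval_rat {n : ℕ} (G : κ[X]) (hG : G.natDegree ≤ n) (u : RatFunc κ) :
    aeval u G * algebraMap κ[X] (RatFunc κ) u.denom ^ n =
      algebraMap κ[X] (RatFunc κ) (hv n (fun j => C (G.coeff j)) u.num u.denom) := by
  have hd : algebraMap κ[X] (RatFunc κ) u.denom ≠ 0 := fun h0 => u.denom_ne_zero
    (IsFractionRing.injective κ[X] (RatFunc κ) (h0.trans (map_zero _).symm))
  have h1 := RatFunc.num_div_denom u
  rw [div_eq_iff hd] at h1
  rw [aeval_eq_sum_range' (Nat.lt_succ_of_le hG), hv, map_sum, Finset.sum_mul]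
  refine Finset.sum_congr rfl fun i hi => ?_
  have hi' : i ≤ n := Nat.lt_succ_iff.1 (Finset.mem_range.1 hi)
  have e : algebraMap κ[X] (RatFunc κ) u.denom ^ n = algebraMap κ[X] (RatFunc κ) u.denom ^ i *
      algebraMap κ[X] (RatFunc κ) u.denom ^ (n - i) := by
    rw [← pow_add, Nat.add_sub_cancel' hi']
  have hC : algebraMap κ[X] (RatFunc κ) (C (G.coeff i)) = algebraMap κ (RatFunc κ) (G.coeff i) :=
    (IsScalarTower.algebraMap_apply κ κ[X] (RatFunc κ) _).symm
  rw [map_mul, map_mul, map_pow, map_pow, h1, e, Algebra.smul_def, hC]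
  ring

/-- **height of a composition** -/
theorem ht_comp [IsAlgClosed κ] (g u : RatFunc κ) (hu : Function.Injective (aeval u : κ[X] → _)) :
    ht (aeval u g.num / aeval u g.denom) = ht g * ht u := by
  have hd : aeval u g.denom ≠ 0 := fun h0 => g.denom_ne_zero (hu (h0.trans (map_zero _).symm))
  have hud : algebraMap κ[X] (RatFunc κ) u.denom ≠ 0 := fun h0 => u.denom_ne_zero
    (IsFractionRing.injective κ[X] (RatFunc κ) (h0.trans (map_zero _).symm))
  refine ht_of (v := hc (ht g) ![g.num, g.denom] ![u.num, u.denom])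
    ((prim_nd g).hc (hdeg_nd g) (prim_nd u)) (HDeg.hc (prim_nd g) (hdeg_nd g) (hdeg_nd u)) ?_
  have e0 := aeval_rat g.num (le_max_left g.num.natDegree g.denom.natDegree) u
  have e1 := aeval_rat g.denom (le_max_right g.num.natDegree g.denom.natDegree) u
  change algebraMap κ[X] (RatFunc κ) (hv (ht g) (fun j => C (g.num.coeff j)) u.num u.denom) =
    _ * algebraMap κ[X] (RatFunc κ) (hv (ht g) (fun j => C (g.denom.coeff j)) u.num u.denom)
  rw [ht, ← e0, ← e1]
  field_simp

/-- height of a power -/
theorem ht_pow [IsAlgClosed κ] (g : RatFunc κ) {q : ℕ} (hq : q ≠ 0) : ht (g ^ q) = q * ht g := by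
  have hd : algebraMap κ[X] (RatFunc κ) g.denom ≠ 0 := fun h0 => g.denom_ne_zero
    (IsFractionRing.injective κ[X] (RatFunc κ) (h0.trans (map_zero _).symm))
  refine ht_of (v := ![g.num ^ q, g.denom ^ q]) ?_ ?_ ?_
  · intro r h
    apply prim_nd g r
    funext i
    have h1 := congrFun h i
    fin_cases i
    · simpa [hq] using h1
    · simpa [hq] using h1
  · have h := hdeg_nd g
    have hn : g.num.natDegree ≤ ht g := le_max_left _ _
    have hd' : g.denom.natDegree ≤ ht g := le_max_right _ _
    constructor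
    · intro i
      fin_cases i
      · exact natDegree_pow_le.trans (Nat.mul_le_mul_left _ (h.1 0))
      · exact natDegree_pow_le.trans (Nat.mul_le_mul_left _ (h.1 1))
    · intro h0
      apply h.2
      funext i
      have h1 := congrFun h0 i
      fin_cases i
      · change (g.num ^ q).coeff (q * ht g) = 0 at h1
        rw [coeff_pow_of_natDegree_le hn] at h1
        exact pow_eq_zero_iff hq |>.1 h1
      · change (g.denom ^ q).coeff (q * ht g) = 0 at h1
        rw [coeff_pow_of_natDegree_le hd'] at h1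
        exact pow_eq_zero_iff hq |>.1 h1
  · have h1 := RatFunc.num_div_denom g
    rw [div_eq_iff hd] at h1
    simp only [Matrix.cons_val_zero, Matrix.cons_val_one, map_pow]
    rw [h1, mul_pow]

end rat

end Pool.Agent.TTC.H
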