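import Pool.Agent.Lib.TTC.H.FF

/-!
TTC, block H (Hasse on `T_2`), part 4: the group `HH` of the points over `LL` with
`x ∈ κ(x)`, `y ∈ ω κ(x)`, the degree `dd` and its parallelogram law.
-/

set_option autoImplicit false

open Polynomial WeierstrassCurve
open scoped WeierstrassCurve.Affine

namespace Pool.Agent.TTC.H

section ht

variable {κ : Type} [Field κ]

/-- the height of a rational function -/
noncomputable def ht (g : RatFunc κ) : ℕ := max g.num.natDegree g.denom.natDegree

theorem prim_nd (g : RatFunc κ) : Prim ![g.num, g.denom] := by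
  intro r h
  have h0 := congrFun h 0
  have h1 := congrFun h 1
  simp only [Matrix.cons_val_zero, Matrix.cons_val_one, Pi.zero_apply] at h0 h1
  obtain ⟨a, b, hab⟩ := RatFunc.isCoprime_num_denom g
  have h2 := congrArg (eval r) hab
  rw [eval_add, eval_mul, eval_mul, h0, h1, eval_one] at h2
  simp at h2

theorem hdeg_nd (g : RatFunc κ) : HDeg ![g.num, g.denom] (ht g) := by
  constructor
  · intro i
    fin_cases i
    · exact le_max_left _ _
    · exact le_max_right _ _
  · intro h
    have h0 := congrFun h 0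
    have h1 := congrFun h 1
    simp only [Matrix.cons_val_zero, Matrix.cons_val_one, Pi.zero_apply] at h0 h1
    rcases le_total g.num.natDegree g.denom.natDegree with h2 | h2
    · rw [ht, max_eq_right h2] at h1
      exact g.denom_ne_zero (leadingCoeff_eq_zero.1 h1)
    · rw [ht, max_eq_left h2] at h0
      have h3 := leadingCoeff_eq_zero.1 h0
      have h4 : g = 0 := RatFunc.num_eq_zero_iff.1 h3
      rw [h4] at h1
      simp [ht] at h1

theorem prim_one_zero : Prim (![1, 0] : Fin 2 → κ[X]) := by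
  intro r h
  have h0 := congrFun h 0
  simp at h0

theorem hdeg_one_zero : HDeg (![1, 0] : Fin 2 → κ[X]) 0 := by
  constructor
  · intro i
    fin_cases i <;> simp
  · intro h
    have h0 := congrFun h 0
    simp at h0

end ht

section pts

variable {k : Type} [Field k] (W : WeierstrassCurve k) {κ : Type} [Field κ] [Algebra k κ]

/-- the coordinates of the `x`-coordinate -/
noncomputable def xpt : (W⁄(LL W κ)).Point → Fin 2 → κ[X]
  | .zero => ![1, 0]
  | .some x _ _ => ![x.re.num, x.re.denom]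

/-- the degree -/
noncomputable def dd : (W⁄(LL W κ)).Point → ℕ
  | .zero => 0
  | .some x _ _ => ht x.re

theorem prim_xpt (P : (W⁄(LL W κ)).Point) : Prim (xpt W P) := by
  rcases P with _ | ⟨x, y, h⟩
  · exact prim_one_zero
  · exact prim_nd _

theorem hdeg_xpt (P : (W⁄(LL W κ)).Point) : HDeg (xpt W P) (dd W P) := by
  rcases P with _ | ⟨x, y, h⟩
  · exact hdeg_one_zero
  · exact hdeg_nd _

/-- the points which the involution maps to their opposites -/
noncomputable def HH : AddSubgroup (W⁄(LL W κ)).Point where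
  carrier := {P | Affine.Point.map (inv W) P = -P}
  zero_mem' := by simp
  add_mem' {P Q} hP hQ := by
    change Affine.Point.map (inv W) (P + Q) = -(P + Q)
    change Affine.Point.map (inv W) P = -P at hP
    change Affine.Point.map (inv W) Q = -Q at hQ
    rw [map_add, hP, hQ]
    abel
  neg_mem' {P} hP := by
    change Affine.Point.map (inv W) (-P) = - -P
    change Affine.Point.map (inv W) P = -P at hP
    rw [map_neg, hP]

theorem mem_HH {P : (W⁄(LL W κ)).Point} : P ∈ HH W ↔ Affine.Point.map (inv W) P = -P := Iff.rfl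

theorem mem_HH_some (h1 : W.a₁ = 0) (h3 : W.a₃ = 0) (h2 : (2 : κ) ≠ 0) {x y : LL W κ}
    (h : (W⁄(LL W κ)).Nonsingular x y) :
    Affine.Point.some x y h ∈ HH W ↔ x.im = 0 ∧ y.re = 0 := by
  rw [mem_HH, Affine.Point.map_some, Affine.Point.neg_some, Affine.Point.some.injEq,
    negY_bc W h1 h3, inv_apply, inv_apply]
  constructor
  · rintro ⟨hx, hy⟩
    exact ⟨star_im_zero W h2 hx, star_re_zero W h2 hy⟩
  · rintro ⟨hx, hy⟩
    constructor
    · ext
      · simp [hx]
      · simp [hx]
    · ext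
      · simp [hy]
      · simp

/-- the coordinates in `LL` -/
theorem xpt_rep {P : (W⁄(LL W κ)).Point} (h1 : W.a₁ = 0) (h3 : W.a₃ = 0) (h2 : (2 : κ) ≠ 0)
    (hP : P ∈ HH W) : ∃ c : LL W κ, c ≠ 0 ∧
      ∀ i, algebraMap κ[X] (LL W κ) (xpt W P i) = c * P.xRep i := by
  rcases P with _ | ⟨x, y, h⟩
  · refine ⟨1, one_ne_zero, fun i => ?_⟩
    rw [← Affine.Point.zero_def, Affine.Point.xRep_zero, Affine.Point.zero_def]
    fin_cases i
    · simp [xpt]
    · simp [xpt]
  · have hx := ((mem_HH_some W h1 h3 h2 h).1 hP).1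
    have hinj : Function.Injective (algebraMap κ[X] (LL W κ)) := by
      rw [IsScalarTower.algebraMap_eq κ[X] (RatFunc κ) (LL W κ)]
      exact (algebraMap (RatFunc κ) (LL W κ)).injective.comp
        (IsFractionRing.injective κ[X] (RatFunc κ))
    refine ⟨algebraMap κ[X] (LL W κ) x.re.denom, fun h0 => x.re.denom_ne_zero
      (hinj (h0.trans (map_zero _).symm)), fun i => ?_⟩
    rw [Affine.Point.xRep_some]
    fin_cases i
    · simp only [xpt, Fin.zero_eta, Fin.isValue, Matrix.cons_val_zero]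
      rw [IsScalarTower.algebraMap_apply κ[X] (RatFunc κ) (LL W κ),
        IsScalarTower.algebraMap_apply κ[X] (RatFunc κ) (LL W κ)]
      have h5 : x = algebraMap (RatFunc κ) (LL W κ) x.re := by
        ext
        · rfl
        · exact hx
      have h6 := RatFunc.num_div_denom x.re
      have h7 : algebraMap κ[X] (RatFunc κ) x.re.denom ≠ 0 := fun h0 => x.re.denom_ne_zero
        (IsFractionRing.injective κ[X] (RatFunc κ) (h0.trans (map_zero _).symm))
      rw [div_eq_iff h7] at h6
      rw [h6, map_mul, ← h5, mul_comm]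
    · simp [xpt]

/-- **Parallelogram law.** -/
theorem parallelogram [IsAlgClosed κ] [W.IsElliptic] (h1 : W.a₁ = 0) (h3 : W.a₃ = 0)
    (h2 : (2 : κ) ≠ 0) {P Q : (W⁄(LL W κ)).Point} (hP : P ∈ HH W) (hQ : Q ∈ HH W) :
    dd W (P + Q) + dd W (P - Q) = 2 * (dd W P + dd W Q) := by
  have hinj : Function.Injective (algebraMap κ[X] (LL W κ)) := by
    rw [IsScalarTower.algebraMap_eq κ[X] (RatFunc κ) (LL W κ)]
    exact (algebraMap (RatFunc κ) (LL W κ)).injective.comp
      (IsFractionRing.injective κ[X] (RatFunc κ))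
  have h2L : (2 : LL W κ) ≠ 0 := by
    intro h0
    apply h2
    apply (algebraMap κ (LL W κ)).injective
    rw [map_ofNat, h0, map_zero]
  obtain ⟨cP, hcP, eP⟩ := xpt_rep W h1 h3 h2 hP
  obtain ⟨cQ, hcQ, eQ⟩ := xpt_rep W h1 h3 h2 hQ
  obtain ⟨cR, hcR, eR⟩ := xpt_rep W h1 h3 h2 (add_mem hP hQ)
  obtain ⟨cS, hcS, eS⟩ := xpt_rep W h1 h3 h2 (sub_mem hP hQ)
  have hb1 : (W⁄(LL W κ)).a₁ = 0 := by
    change algebraMap k _ W.a₁ = 0
    rw [h1, map_zero]
  have hb3 : (W⁄(LL W κ)).a₃ = 0 := by
    change algebraMap k _ W.a₃ = 0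
    rw [h3, map_zero]
  obtain ⟨c, hc, e⟩ := rel (W⁄(LL W κ)) hb1 hb3 h2L P Q
  refine deg_parallelogram (W⁄κ) (prim_xpt W P) (prim_xpt W Q) (prim_xpt W (P + Q))
    (prim_xpt W (P - Q)) (hdeg_xpt W P) (hdeg_xpt W Q) (hdeg_xpt W (P + Q))
    (hdeg_xpt W (P - Q)) fun i j => ?_
  have hsy : ∀ (A B : (W⁄(LL W κ)).Point) (cA cB : LL W κ),
      (∀ i, algebraMap κ[X] (LL W κ) (xpt W A i) = cA * A.xRep i) →
      (∀ i, algebraMap κ[X] (LL W κ) (xpt W B i) = cB * B.xRep i) →
      ∀ i, algebraMap κ[X] (LL W κ) (sy (xpt W A) (xpt W B) i) =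
        (cA * cB) * A.sym2x B i := by
    intro A B cA cB eA eB i
    fin_cases i
    · simp only [Fin.zero_eta, sy_zero, map_mul, eA, eB]
      change _ = cA * cB * (A.xRep 0 * B.xRep 0)
      ring
    · simp only [Fin.mk_one, sy_one, map_add, map_mul, eA, eB]
      change _ = cA * cB * (A.xRep 0 * B.xRep 1 + A.xRep 1 * B.xRep 0)
      ring
    · simp only [Fin.reduceFinMk, sy_two, map_mul, eA, eB]
      change _ = cA * cB * (A.xRep 1 * B.xRep 1)
      ring
  have hW : WeierstrassCurve.map (WeierstrassCurve.map (W⁄κ) C) (algebraMap κ[X] (LL W κ)) =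
      W⁄(LL W κ) := by
    change (((W.map (algebraMap k κ)).map C).map (algebraMap κ[X] (LL W κ))) = W.map _
    rw [WeierstrassCurve.map_map, WeierstrassCurve.map_map]
    congr 1
  have key : ∀ i, algebraMap κ[X] (LL W κ)
      (asub (WeierstrassCurve.map (W⁄κ) C) (sy (xpt W P) (xpt W Q)) i) =
      ((cP * cQ) ^ 2 * c) * (P + Q).sym2x (P - Q) i := by
    intro i
    rw [← asub_map, hW]
    have e5 : (fun i => algebraMap κ[X] (LL W κ) (sy (xpt W P) (xpt W Q) i)) =
        (cP * cQ) • P.sym2x Q := by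
      funext i
      exact hsy P Q cP cQ eP eQ i
    rw [e5, asub_smul, e]
    simp only [Pi.smul_apply, smul_eq_mul]
    ring
  apply hinj
  rw [map_mul, map_mul, key, key, hsy _ _ cR cS eR eS, hsy _ _ cR cS eR eS]
  ring

end pts

end Pool.Agent.TTC.H
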