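import Pool.Agent.Lib.TTC.H.Rel

/-!
TTC, block H (Hasse on `T_2`), part 2: vectors of polynomials without common zero over an
algebraically closed field, their degrees, and the degrees of `asub`.
-/

set_option autoImplicit false

open Polynomial

namespace Pool.Agent.TTC.H

section prim

variable {κ : Type} [Field κ] {n : ℕ}

/-- no common zero -/
def Prim (v : Fin n → κ[X]) : Prop := ∀ r : κ, (fun i => (v i).eval r) ≠ 0

/-- `N` is the largest degree -/
def HDeg (v : Fin n → κ[X]) (N : ℕ) : Prop :=
  (∀ i, (v i).natDegree ≤ N) ∧ (fun i => (v i).coeff N) ≠ 0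

theorem HDeg.unique {v : Fin n → κ[X]} {N M : ℕ} (h : HDeg v N) (h' : HDeg v M) : N = M := by
  rcases lt_trichotomy N M with h1 | h1 | h1
  · exact absurd (funext fun i => coeff_eq_zero_of_natDegree_lt (lt_of_le_of_lt (h.1 i) h1)) h'.2
  · exact h1
  · exact absurd (funext fun i => coeff_eq_zero_of_natDegree_lt (lt_of_le_of_lt (h'.1 i) h1)) h.2

theorem HDeg.C_mul {v w : Fin n → κ[X]} {N : ℕ} (h : HDeg w N) {c : κ} (hc : c ≠ 0)
    (hv : ∀ i, v i = C c * w i) : HDeg v N := by
  constructor
  · intro i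
    rw [hv]
    exact (natDegree_C_mul_le _ _).trans (h.1 i)
  · intro h0
    apply h.2
    funext i
    have h1 := congrFun h0 i
    simp only [hv, coeff_C_mul, Pi.zero_apply, mul_eq_zero] at h1
    exact h1.resolve_left hc

/-- two proportional vectors without common zero differ by a constant -/
theorem prop_of [IsAlgClosed κ] {v w : Fin n → κ[X]} (hv : Prim v) (hw : Prim w)
    (h : ∀ i j, v i * w j = v j * w i) : ∃ c : κ, c ≠ 0 ∧ ∀ i, v i = C c * w i := by
  have h1 : (1 : κ[X]) ∈ Ideal.span (Set.range w) := by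
    obtain ⟨g, hg⟩ := (IsPrincipalIdealRing.principal (Ideal.span (Set.range w))).principal
    have hdv : ∀ i, g ∣ w i := by
      intro i
      rw [← Ideal.mem_span_singleton, ← Ideal.submodule_span_eq, ← hg]
      exact Ideal.subset_span ⟨i, rfl⟩
    have hgu : IsUnit g := by
      by_contra hu
      obtain ⟨r, hr⟩ : ∃ r, IsRoot g r := by
        by_cases hg0 : g = 0
        · exact ⟨0, by rw [hg0]; simp⟩
        · apply IsAlgClosed.exists_root
          intro hd
          exact hu (isUnit_iff_degree_eq_zero.2 hd)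
      apply hw r
      funext i
      obtain ⟨u, hu⟩ := hdv i
      rw [hu, eval_mul, hr.eq_zero, zero_mul]
      rfl
    rw [hg, Ideal.submodule_span_eq, Ideal.mem_span_singleton]
    exact hgu.dvd
  obtain ⟨u, hu⟩ := Ideal.mem_span_range_iff_exists_fun.1 h1
  set H := ∑ j, u j * v j with hH
  have hvi : ∀ i, v i = H * w i := by
    intro i
    calc v i = v i * ∑ j, u j * w j := by rw [hu, mul_one]
      _ = ∑ j, u j * (v i * w j) := by
        rw [Finset.mul_sum]
        exact Finset.sum_congr rfl fun j _ => by ring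
      _ = ∑ j, u j * (v j * w i) := Finset.sum_congr rfl fun j _ => by rw [h i j]
      _ = H * w i := by
        rw [hH, Finset.sum_mul]
        exact Finset.sum_congr rfl fun j _ => by ring
  have hd : H.degree = 0 := by
    by_contra hd
    obtain ⟨r, hr⟩ := IsAlgClosed.exists_root H hd
    apply hv r
    funext i
    rw [hvi i, eval_mul, hr.eq_zero, zero_mul]
    rfl
  have hC := eq_C_of_degree_eq_zero hd
  refine ⟨H.coeff 0, ?_, fun i => by rw [← hC]; exact hvi i⟩
  intro h0
  rw [h0, C_0] at hC
  rw [hC] at hd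
  simp at hd

end prim

section sy

variable {R : Type} [CommRing R]

/-- symmetric product of two pairs -/
def sy (p q : Fin 2 → R) : Fin 3 → R := ![p 0 * q 0, p 0 * q 1 + p 1 * q 0, p 1 * q 1]

@[simp] theorem sy_zero (p q : Fin 2 → R) : sy p q 0 = p 0 * q 0 := rfl
@[simp] theorem sy_one (p q : Fin 2 → R) : sy p q 1 = p 0 * q 1 + p 1 * q 0 := rfl
@[simp] theorem sy_two (p q : Fin 2 → R) : sy p q 2 = p 1 * q 1 := rfl

theorem sy_ne_zero [IsDomain R] {p q : Fin 2 → R} (hp : p ≠ 0) (hq : q ≠ 0) : sy p q ≠ 0 := by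
  intro h
  have h0 := congrFun h 0
  have h1 := congrFun h 1
  have h2 := congrFun h 2
  simp only [sy_zero, sy_one, sy_two, Pi.zero_apply, mul_eq_zero] at h0 h1 h2
  have hp' : p 0 = 0 → p 1 = 0 → False := fun a b => hp (by
    funext i
    fin_cases i
    · exact a
    · exact b)
  have hq' : q 0 = 0 → q 1 = 0 → False := fun a b => hq (by
    funext i
    fin_cases i
    · exact a
    · exact b)
  rcases h0 with a | a <;> rcases h2 with b | b
  · exact hp' a b
  · rw [a, b] at h1
    simp only [mul_zero, zero_add, mul_eq_zero] at h1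
    rcases h1 with c | c
    · exact hp' a c
    · exact hq' c b
  · rw [a, b] at h1
    simp only [zero_mul, add_zero, mul_eq_zero] at h1
    rcases h1 with c | c
    · exact hp' c b
    · exact hq' a c
  · exact hq' a b

variable {κ : Type} [Field κ]

theorem Prim.sy {p q : Fin 2 → κ[X]} (hp : Prim p) (hq : Prim q) : Prim (sy p q) := by
  intro r h
  apply sy_ne_zero (hp r) (hq r)
  funext i
  have := congrFun h i
  fin_cases i <;> simpa using this

theorem HDeg.sy {p q : Fin 2 → κ[X]} {m n : ℕ} (hp : HDeg p m) (hq : HDeg q n) :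
    HDeg (H.sy p q) (m + n) := by
  have hm : ∀ i j, (p i * q j).natDegree ≤ m + n := fun i j =>
    natDegree_mul_le_of_le (hp.1 i) (hq.1 j)
  have hc : ∀ i j, (p i * q j).coeff (m + n) = (p i).coeff m * (q j).coeff n := fun i j =>
    coeff_mul_add_eq_of_natDegree_le (hp.1 i) (hq.1 j)
  constructor
  · intro i
    fin_cases i
    · exact hm 0 0
    · exact natDegree_add_le_of_degree_le (hm 0 1) (hm 1 0)
    · exact hm 1 1
  · intro h
    apply sy_ne_zero hp.2 hq.2
    funext i
    have := congrFun h i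
    fin_cases i
    · simpa [hc] using this
    · simpa [hc] using this
    · simpa [hc] using this

end sy

section asub

variable {κ : Type} [Field κ] (W : WeierstrassCurve κ)

theorem asub_map {R S : Type} [CommRing R] [CommRing S] (W : WeierstrassCurve R) (φ : R →+* S)
    (v : Fin 3 → R) (i : Fin 3) : asub (W.map φ) (fun i => φ (v i)) i = φ (asub W v i) := by
  rw [asub_eq, asub_eq]
  have h2 : φ 2 = 2 := map_ofNat φ 2
  have h4 : φ 4 = 4 := map_ofNat φ 4
  fin_cases i <;> simp [h2, h4]

theorem asub_ne_zero [W.IsElliptic] {v : Fin 3 → κ} (hv : v ≠ 0) : asub W v ≠ 0 :=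
  W.addSubMap_ne_zero hv

theorem Prim.asub [W.IsElliptic] {v : Fin 3 → κ[X]} (hv : Prim v) :
    Prim (H.asub (W.map C) v) := by
  intro r h
  apply asub_ne_zero W (hv r)
  funext i
  have h1 := congrFun h i
  have h2 := asub_map (W.map C) (evalRingHom r) v i
  have h3 : (W.map C).map (evalRingHom r) = W := by
    rw [WeierstrassCurve.map_map]
    have : (evalRingHom r).comp C = RingHom.id κ := by
      ext x
      simp
    rw [this, WeierstrassCurve.map_id]
  rw [h3] at h2
  simp only [coe_evalRingHom, Pi.zero_apply] at h1 h2 ⊢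
  rw [h2, h1]

theorem HDeg.asub [W.IsElliptic] {v : Fin 3 → κ[X]} {N : ℕ} (hv : HDeg v N) :
    HDeg (H.asub (W.map C) v) (2 * N) := by
  rw [two_mul]
  have hm : ∀ i j, (v i * v j).natDegree ≤ N + N := fun i j =>
    natDegree_mul_le_of_le (hv.1 i) (hv.1 j)
  have hc : ∀ i j, (v i * v j).coeff (N + N) = (v i).coeff N * (v j).coeff N := fun i j =>
    coeff_mul_add_eq_of_natDegree_le (hv.1 i) (hv.1 j)
  have hs2 : ∀ {a b : κ[X]}, a.natDegree ≤ N + N → b.natDegree ≤ N + N →
      (a - b).natDegree ≤ N + N := fun h h' =>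
    (natDegree_sub_le_of_le h h').trans (max_self _).le
  have hmC : ∀ (c : κ) i j, (C c * (v i * v j)).natDegree ≤ N + N := fun c i j =>
    (natDegree_C_mul_le _ _).trans (hm i j)
  have e0 : H.asub (W.map C) v 0 = v 0 * v 0 - C W.b₄ * (v 0 * v 2) - C W.b₆ * (v 1 * v 2) -
      C W.b₈ * (v 2 * v 2) := by
    rw [asub_zero, WeierstrassCurve.map_b₄, WeierstrassCurve.map_b₆, WeierstrassCurve.map_b₈]
    ring
  have e1 : H.asub (W.map C) v 1 = C 2 * (v 1 * v 0) + C W.b₂ * (v 0 * v 2) +
      C W.b₄ * (v 1 * v 2) + C W.b₆ * (v 2 * v 2) := by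
    rw [asub_one, WeierstrassCurve.map_b₂, WeierstrassCurve.map_b₄, WeierstrassCurve.map_b₆,
      map_ofNat]
    ring
  have e2 : H.asub (W.map C) v 2 = v 1 * v 1 - C 4 * (v 0 * v 2) := by
    rw [asub_two, map_ofNat]
    ring
  constructor
  · intro i
    fin_cases i
    · change (H.asub (W.map C) v 0).natDegree ≤ _
      rw [e0]
      exact hs2 (hs2 (hs2 (hm 0 0) (hmC _ 0 2)) (hmC _ 1 2)) (hmC _ 2 2)
    · change (H.asub (W.map C) v 1).natDegree ≤ _
      rw [e1]
      exact natDegree_add_le_of_degree_le (natDegree_add_le_of_degree_le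
        (natDegree_add_le_of_degree_le (hmC _ 1 0) (hmC _ 0 2)) (hmC _ 1 2)) (hmC _ 2 2)
    · change (H.asub (W.map C) v 2).natDegree ≤ _
      rw [e2]
      exact hs2 (hm 1 1) (hmC _ 0 2)
  · intro h
    apply asub_ne_zero W hv.2
    funext i
    have h1 := congrFun h i
    fin_cases i
    · change (H.asub (W.map C) v 0).coeff _ = 0 at h1
      rw [e0] at h1
      simp only [coeff_sub, coeff_C_mul, hc] at h1
      change H.asub W _ 0 = 0
      rw [asub_zero]
      linear_combination h1
    · change (H.asub (W.map C) v 1).coeff _ = 0 at h1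
      rw [e1] at h1
      simp only [coeff_add, coeff_C_mul, hc] at h1
      change H.asub W _ 1 = 0
      rw [asub_one]
      linear_combination h1
    · change (H.asub (W.map C) v 2).coeff _ = 0 at h1
      rw [e2] at h1
      simp only [coeff_sub, coeff_C_mul, hc] at h1
      change H.asub W _ 2 = 0
      rw [asub_two]
      linear_combination h1

/-- **Parallelogram law for degrees**, abstract form. -/
theorem deg_parallelogram [IsAlgClosed κ] [W.IsElliptic] {p q r s : Fin 2 → κ[X]}
    {m n m' n' : ℕ} (hp : Prim p) (hq : Prim q) (hr : Prim r) (hs : Prim s) (hpm : HDeg p m)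
    (hqn : HDeg q n) (hrm : HDeg r m') (hsn : HDeg s n')
    (h : ∀ i j, H.asub (W.map C) (H.sy p q) i * H.sy r s j =
      H.asub (W.map C) (H.sy p q) j * H.sy r s i) : m' + n' = 2 * (m + n) := by
  obtain ⟨c, hc, h1⟩ := prop_of ((hp.sy hq).asub W) (hr.sy hs) h
  have h2 := ((hpm.sy hqn).asub W)
  exact ((hrm.sy hsn).C_mul hc h1).unique h2

end asub

end Pool.Agent.TTC.H
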