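import Pool.Agent.Lib.TTC.H.Crv
import Pool.Agent.Lib.SM.E.Bdd

/-!
TTC, block H, reduction: at a place `w` of `Om` where `y ^ 2 = (x - e₁) (x - e₂) (x - e₃)` has good
reduction, the reduction of the 2-power torsion points.
-/

set_option autoImplicit false

open WeierstrassCurve
open scoped WeierstrassCurve.Affine

namespace Pool.Agent.TTC.H

open Pool.Agent.SmithE Pool.Agent.Lib.SmD

/-- Good reduction: `π : w → κ` the reduction, `a₁, a₂, a₃ ∈ k ⊆ κ` the reductions of the roots. -/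
structure RedHyp {K Om : Type} [Field K] [Field Om] [Algebra K Om] (w : ValuationSubring Om)
    {k κ : Type} [Field k] [Field κ] [Algebra k κ] (π : w →+* κ) (e₁ e₂ e₃ : K)
    (a₁ a₂ a₃ : k) : Prop where
  ker : ∀ x : w, w.valuation (x : Om) < 1 → π x = 0
  two : w.valuation (2 : Om) = 1
  v₁ : w.valuation (algebraMap K Om e₁) ≤ 1
  v₂ : w.valuation (algebraMap K Om e₂) ≤ 1
  v₃ : w.valuation (algebraMap K Om e₃) ≤ 1
  v₁₂ : w.valuation (algebraMap K Om (e₁ - e₂)) = 1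
  v₁₃ : w.valuation (algebraMap K Om (e₁ - e₃)) = 1
  v₂₃ : w.valuation (algebraMap K Om (e₂ - e₃)) = 1
  r₁ : ∀ x : w, (x : Om) = algebraMap K Om e₁ → π x = algebraMap k κ a₁
  r₂ : ∀ x : w, (x : Om) = algebraMap K Om e₂ → π x = algebraMap k κ a₂
  r₃ : ∀ x : w, (x : Om) = algebraMap K Om e₃ → π x = algebraMap k κ a₃

section red

variable {K Om : Type} [Field K] [Field Om] [Algebra K Om] {w : ValuationSubring Om}
  {e₁ e₂ e₃ : K} {k κ : Type} [Field k] [Field κ] [Algebra k κ] {π : w →+* κ} {a₁ a₂ a₃ : k}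

theorem RedHyp.unit (_h : RedHyp w π e₁ e₂ e₃ a₁ a₂ a₃) {x : w} (hx : w.valuation (x : Om) = 1) :
    π x ≠ 0 := by
  have hx0 : (x : Om) ≠ 0 := by
    intro h0
    rw [h0, map_zero] at hx
    exact zero_ne_one hx
  have hinv : (x : Om)⁻¹ ∈ w := by
    rw [← ValuationSubring.valuation_le_one_iff, map_inv₀, hx, inv_one]
  intro h0
  have h1 : x * ⟨(x : Om)⁻¹, hinv⟩ = 1 := Subtype.ext (mul_inv_cancel₀ hx0)
  have h2 := congrArg π h1
  rw [map_mul, h0, zero_mul, map_one] at h2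
  exact zero_ne_one h2

theorem RedHyp.two_ne (h : RedHyp w π e₁ e₂ e₃ a₁ a₂ a₃) : (2 : κ) ≠ 0 := by
  have h1 := h.unit (x := 2) h.two
  rwa [map_ofNat] at h1

/-- the roots in `w` -/
def RedHyp.E₁ (h : RedHyp w π e₁ e₂ e₃ a₁ a₂ a₃) : w :=
  ⟨algebraMap K Om e₁, (ValuationSubring.valuation_le_one_iff w _).1 h.v₁⟩
def RedHyp.E₂ (h : RedHyp w π e₁ e₂ e₃ a₁ a₂ a₃) : w :=
  ⟨algebraMap K Om e₂, (ValuationSubring.valuation_le_one_iff w _).1 h.v₂⟩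
def RedHyp.E₃ (h : RedHyp w π e₁ e₂ e₃ a₁ a₂ a₃) : w :=
  ⟨algebraMap K Om e₃, (ValuationSubring.valuation_le_one_iff w _).1 h.v₃⟩

theorem RedHyp.ne₁₂ (h : RedHyp w π e₁ e₂ e₃ a₁ a₂ a₃) : a₁ ≠ a₂ := by
  intro h0
  have h1 := h.unit (x := h.E₁ - h.E₂) (by
    have := h.v₁₂
    rw [map_sub] at this
    exact this)
  rw [map_sub, h.r₁ h.E₁ rfl, h.r₂ h.E₂ rfl, h0, sub_self] at h1
  exact h1 rfl

theorem RedHyp.ne₁₃ (h : RedHyp w π e₁ e₂ e₃ a₁ a₂ a₃) : a₁ ≠ a₃ := by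
  intro h0
  have h1 := h.unit (x := h.E₁ - h.E₃) (by
    have := h.v₁₃
    rw [map_sub] at this
    exact this)
  rw [map_sub, h.r₁ h.E₁ rfl, h.r₃ h.E₃ rfl, h0, sub_self] at h1
  exact h1 rfl

theorem RedHyp.ne₂₃ (h : RedHyp w π e₁ e₂ e₃ a₁ a₂ a₃) : a₂ ≠ a₃ := by
  intro h0
  have h1 := h.unit (x := h.E₂ - h.E₃) (by
    have := h.v₂₃
    rw [map_sub] at this
    exact this)
  rw [map_sub, h.r₂ h.E₂ rfl, h.r₃ h.E₃ rfl, h0, sub_self] at h1
  exact h1 rfl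

theorem RedHyp.nek₁₂ (h : RedHyp w π e₁ e₂ e₃ a₁ a₂ a₃) : e₁ ≠ e₂ := by
  rintro rfl
  have := h.v₁₂
  simp at this

theorem RedHyp.nek₁₃ (h : RedHyp w π e₁ e₂ e₃ a₁ a₂ a₃) : e₁ ≠ e₃ := by
  rintro rfl
  have := h.v₁₃
  simp at this

theorem RedHyp.nek₂₃ (h : RedHyp w π e₁ e₂ e₃ a₁ a₂ a₃) : e₂ ≠ e₃ := by
  rintro rfl
  have := h.v₂₃
  simp at this

theorem RedHyp.twok_ne (h : RedHyp w π e₁ e₂ e₃ a₁ a₂ a₃) : (2 : k) ≠ 0 := by
  intro h0
  apply h.two_ne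
  rw [← map_ofNat (algebraMap k κ), h0, map_zero]

theorem RedHyp.mapOm (h : RedHyp w π e₁ e₂ e₃ a₁ a₂ a₃) :
    Affine.baseChange (crv e₁ e₂ e₃) Om = (crv h.E₁ h.E₂ h.E₃).map w.subtype := by
  rw [baseChange_crv, crv_map]
  rfl

theorem RedHyp.mapκ (h : RedHyp w π e₁ e₂ e₃ a₁ a₂ a₃) :
    Affine.baseChange (crv a₁ a₂ a₃) κ = (crv h.E₁ h.E₂ h.E₃).map π := by
  rw [baseChange_crv, crv_map, h.r₁ h.E₁ rfl, h.r₂ h.E₂ rfl, h.r₃ h.E₃ rfl]

variable (π)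

/-- `P'` is the reduction of `P` -/
def Red (P : Pt Om e₁ e₂ e₃) (P' : Pt κ a₁ a₂ a₃) : Prop :=
  (P = 0 ∧ P' = 0) ∨ ∃ (x y : w) (h : (Affine.baseChange (crv e₁ e₂ e₃) Om).Nonsingular x y)
    (h' : (Affine.baseChange (crv a₁ a₂ a₃) κ).Nonsingular (π x) (π y)),
    P = .some (x : Om) (y : Om) h ∧ P' = .some (π x) (π y) h'

variable {π}

theorem Red.unique {P : Pt Om e₁ e₂ e₃} {P' P'' : Pt κ a₁ a₂ a₃} (h : Red π P P')
    (h' : Red π P P'') : P' = P'' := by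
  rcases h with ⟨h1, h2⟩ | ⟨x, y, n, n', h1, h2⟩ <;>
    rcases h' with ⟨h3, h4⟩ | ⟨x', y', m, m', h3, h4⟩
  · rw [h2, h4]
  · rw [h1] at h3
    exact absurd h3.symm (Affine.Point.some_ne_zero _)
  · rw [h3] at h1
    exact absurd h1.symm (Affine.Point.some_ne_zero _)
  · rw [h1, Affine.Point.some.injEq] at h3
    obtain ⟨e, e'⟩ := h3
    have e1 : x = x' := Subtype.ext e
    have e2 : y = y' := Subtype.ext e'
    subst e1 e2
    rw [h2, h4]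

theorem Red.zero_left {P : Pt Om e₁ e₂ e₃} (h : Red π P (0 : Pt κ a₁ a₂ a₃)) : P = 0 := by
  rcases h with ⟨h1, -⟩ | ⟨x, y, n, n', -, h2⟩
  · exact h1
  · exact absurd h2.symm (Affine.Point.some_ne_zero _)

variable [DecidableEq Om] [DecidableEq κ]

theorem Red.neg {P : Pt Om e₁ e₂ e₃} {P' : Pt κ a₁ a₂ a₃} (h : Red π P P') :
    Red π (-P) (-P') := by
  rcases h with ⟨h1, h2⟩ | ⟨x, y, n, n', h1, h2⟩
  · left
    rw [h1, h2, neg_zero, neg_zero]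
    exact ⟨rfl, rfl⟩
  · right
    have hN : (Affine.baseChange (crv e₁ e₂ e₃) Om).negY (x : Om) (y : Om) = ((-y : w) : Om) := by
      rw [negY_eq baseChange_crv]
      rfl
    have hN' : (Affine.baseChange (crv a₁ a₂ a₃) κ).negY (π x) (π y) = π (-y) := by
      rw [negY_eq baseChange_crv, map_neg]
    refine ⟨x, -y, ?_, ?_, ?_, ?_⟩
    · rw [← hN]
      exact (Affine.nonsingular_neg ..).2 n
    · rw [← hN']
      exact (Affine.nonsingular_neg ..).2 n'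
    · rw [h1, Affine.Point.neg_some, Affine.Point.some.injEq]
      exact ⟨rfl, hN⟩
    · rw [h2, Affine.Point.neg_some, Affine.Point.some.injEq]
      exact ⟨rfl, hN'⟩

omit [DecidableEq κ] in
/-- every 2-power torsion point has a reduction -/
theorem RedHyp.exists_red (h : RedHyp w π e₁ e₂ e₃ a₁ a₂ a₃) {P : Pt Om e₁ e₂ e₃} {j : ℕ}
    (hP : (2 ^ j) • P = 0) : ∃ P' : Pt κ a₁ a₂ a₃, Red π P P' := by
  rcases P with _ | ⟨x, y, n⟩
  · exact ⟨0, Or.inl ⟨rfl, rfl⟩⟩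
  have h1 : ∀ {z : Om}, w.valuation z ≤ 1 → w.valuation z ≤ w.valuation (1 : Om) := fun hz => by
    rwa [map_one]
  have hx := x_le (m := (1 : Om)) baseChange_crv h.two (h1 h.v₁) (h1 h.v₂) (h1 h.v₃) j n hP
  rw [map_one, ValuationSubring.valuation_le_one_iff] at hx
  have hE := eqn baseChange_crv n
  have hy : y ∈ w := by
    rw [← ValuationSubring.valuation_le_one_iff]
    have h2 : w.valuation (y ^ 2) ≤ 1 := by
      rw [hE, ValuationSubring.valuation_le_one_iff]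
      exact mul_mem (mul_mem (sub_mem hx h.E₁.2) (sub_mem hx h.E₂.2)) (sub_mem hx h.E₃.2)
    rw [map_pow] at h2
    exact (pow_le_one_iff_of_nonneg zero_le two_ne_zero).1 h2
  have hEw : (⟨y, hy⟩ : w) ^ 2 = (⟨x, hx⟩ - h.E₁) * (⟨x, hx⟩ - h.E₂) * (⟨x, hx⟩ - h.E₃) :=
    Subtype.ext hE
  have hEκ := congrArg π hEw
  rw [map_pow, map_mul, map_mul, map_sub, map_sub, map_sub, h.r₁ h.E₁ rfl, h.r₂ h.E₂ rfl,
    h.r₃ h.E₃ rfl] at hEκ
  have hell := crv_isElliptic h.twok_ne h.ne₁₂ h.ne₁₃ h.ne₂₃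
  have hns : (Affine.baseChange (crv a₁ a₂ a₃) κ).Nonsingular (π ⟨x, hx⟩) (π ⟨y, hy⟩) := by
    rw [← Affine.equation_iff_nonsingular, baseChange_crv]
    exact equation_crv.2 hEκ
  exact ⟨.some _ _ hns, Or.inr ⟨⟨x, hx⟩, ⟨y, hy⟩, n, hns, rfl, rfl⟩⟩

/-- the sum, with a slope in `w` -/
theorem RedHyp.red_add_aux (h : RedHyp w π e₁ e₂ e₃ a₁ a₂ a₃) {x y x' y' ℓ : w}
    (n : (Affine.baseChange (crv e₁ e₂ e₃) Om).Nonsingular x y)
    (n' : (Affine.baseChange (crv e₁ e₂ e₃) Om).Nonsingular x' y')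
    (m : (Affine.baseChange (crv a₁ a₂ a₃) κ).Nonsingular (π x) (π y))
    (m' : (Affine.baseChange (crv a₁ a₂ a₃) κ).Nonsingular (π x') (π y'))
    (hxy : ¬((x : Om) = x' ∧ (y : Om) = (Affine.baseChange (crv e₁ e₂ e₃) Om).negY x' y'))
    (hxy' : ¬(π x = π x' ∧ π y = (Affine.baseChange (crv a₁ a₂ a₃) κ).negY (π x') (π y')))
    (hl : (Affine.baseChange (crv e₁ e₂ e₃) Om).slope (x : Om) x' y y' = ℓ)
    (hl' : (Affine.baseChange (crv a₁ a₂ a₃) κ).slope (π x) (π x') (π y) (π y') = π ℓ) :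
    Red π (Affine.Point.some (x : Om) y n + Affine.Point.some (x' : Om) y' n')
      (Affine.Point.some (π x) (π y) m + Affine.Point.some (π x') (π y') m') := by
  right
  have hX : (Affine.baseChange (crv e₁ e₂ e₃) Om).addX (x : Om) x'
      ((Affine.baseChange (crv e₁ e₂ e₃) Om).slope (x : Om) x' y y') =
      ((crv h.E₁ h.E₂ h.E₃).toAffine.addX x x' ℓ : w) := by
    rw [hl, h.mapOm]
    exact Affine.map_addX w.subtype x x' ℓ
  have hY : (Affine.baseChange (crv e₁ e₂ e₃) Om).addY (x : Om) x' y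
      ((Affine.baseChange (crv e₁ e₂ e₃) Om).slope (x : Om) x' y y') =
      ((crv h.E₁ h.E₂ h.E₃).toAffine.addY x x' y ℓ : w) := by
    rw [hl, h.mapOm]
    exact Affine.map_addY w.subtype x y x' ℓ
  have hX' : (Affine.baseChange (crv a₁ a₂ a₃) κ).addX (π x) (π x')
      ((Affine.baseChange (crv a₁ a₂ a₃) κ).slope (π x) (π x') (π y) (π y')) =
      π ((crv h.E₁ h.E₂ h.E₃).toAffine.addX x x' ℓ) := by
    rw [hl', h.mapκ]
    exact Affine.map_addX π x x' ℓ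
  have hY' : (Affine.baseChange (crv a₁ a₂ a₃) κ).addY (π x) (π x') (π y)
      ((Affine.baseChange (crv a₁ a₂ a₃) κ).slope (π x) (π x') (π y) (π y')) =
      π ((crv h.E₁ h.E₂ h.E₃).toAffine.addY x x' y ℓ) := by
    rw [hl', h.mapκ]
    exact Affine.map_addY π x y x' ℓ
  refine ⟨(crv h.E₁ h.E₂ h.E₃).toAffine.addX x x' ℓ, (crv h.E₁ h.E₂ h.E₃).toAffine.addY x x' y ℓ,
    ?_, ?_, ?_, ?_⟩
  rotate_left 2
  · rw [Affine.Point.add_some hxy, Affine.Point.some.injEq]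
    exact ⟨hX, hY⟩
  · rw [Affine.Point.add_some hxy', Affine.Point.some.injEq]
    exact ⟨hX', hY'⟩
  · rw [← hX, ← hY]
    exact Affine.nonsingular_add n n' hxy
  · rw [← hX', ← hY']
    exact Affine.nonsingular_add m m' hxy'

end red

end Pool.Agent.TTC.H
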