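import Pool.Agent.Lib.TTC.H.Red

/-!
TTC, block H, reduction (2): the reduction of the 2-power torsion is additive and commutes with the
Frobenius; Hasse's relation for a Frobenius element at a place of good reduction.
-/

set_option autoImplicit false

open WeierstrassCurve
open scoped WeierstrassCurve.Affine

namespace Pool.Agent.TTC.H

open Pool.Agent.SmithE Pool.Agent.Lib.SmD

section red

variable {K Om : Type} [Field K] [Field Om] [Algebra K Om] {w : ValuationSubring Om}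
  {e₁ e₂ e₃ : K} {k κ : Type} [Field k] [Field κ] [Algebra k κ] {π : w →+* κ} {a₁ a₂ a₃ : k}

theorem RedHyp.lift_div (h : RedHyp w π e₁ e₂ e₃ a₁ a₂ a₃) (n d : w)
    (hd : w.valuation (d : Om) = 1) : ∃ ℓ : w, (n : Om) / d = ℓ ∧ π n / π d = π ℓ := by
  have hd0 : (d : Om) ≠ 0 := by
    intro h0
    rw [h0, map_zero] at hd
    exact zero_ne_one hd
  have hinv : (d : Om)⁻¹ ∈ w := by
    rw [← ValuationSubring.valuation_le_one_iff, map_inv₀, hd, inv_one]
  refine ⟨n * ⟨(d : Om)⁻¹, hinv⟩, ?_, ?_⟩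
  · rw [div_eq_mul_inv]
    rfl
  · have h1 : (⟨(d : Om)⁻¹, hinv⟩ : w) * d = 1 := Subtype.ext (inv_mul_cancel₀ hd0)
    have h2 := congrArg π h1
    rw [map_mul, map_one] at h2
    rw [map_mul, div_eq_iff (h.unit hd), mul_assoc, h2, mul_one]

variable [DecidableEq Om]

omit [DecidableEq Om] in
theorem RedHyp.val_delta (h : RedHyp w π e₁ e₂ e₃ a₁ a₂ a₃) :
    w.valuation ((algebraMap K Om e₁ - algebraMap K Om e₂) *
      (algebraMap K Om e₁ - algebraMap K Om e₃) * (algebraMap K Om e₂ - algebraMap K Om e₃)) = 1 := by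
  rw [← map_sub, ← map_sub, ← map_sub, map_mul, map_mul, h.v₁₂, h.v₁₃, h.v₂₃, one_mul, one_mul]

/-- `y` is a unit -/
theorem RedHyp.y_unit (h : RedHyp w π e₁ e₂ e₃ a₁ a₂ a₃) {x y : w}
    (n : (Affine.baseChange (crv e₁ e₂ e₃) Om).Nonsingular x y) {j : ℕ}
    (hP : (2 ^ j) • (Affine.Point.some (x : Om) y n : Pt Om e₁ e₂ e₃) = 0) (hy : (y : Om) ≠ 0) :
    w.valuation (y : Om) = 1 := by
  have h1 : ∀ {z : Om}, w.valuation z ≤ 1 → w.valuation z ≤ w.valuation (1 : Om) := fun hz => by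
    rwa [map_one]
  have inj := (algebraMap K Om).injective
  have h5 := y_ge (m := (1 : Om)) baseChange_crv h.two (h1 h.v₁) (h1 h.v₂) (h1 h.v₃)
    (inj.ne h.nek₁₂) (inj.ne h.nek₁₃) (inj.ne h.nek₂₃) n hy hP
  rw [h.val_delta, map_one, one_pow, one_pow, one_mul] at h5
  have hle : w.valuation (y : Om) ≤ 1 := (ValuationSubring.valuation_le_one_iff w _).2 y.2
  refine le_antisymm hle ?_
  by_contra hc
  push Not at hc
  exact absurd (pow_lt_one₀ zero_le hc two_ne_zero) (not_lt.2 h5)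

/-- `x - x'` is a unit -/
theorem RedHyp.x_unit (h : RedHyp w π e₁ e₂ e₃ a₁ a₂ a₃) {x y x' y' : w}
    (n : (Affine.baseChange (crv e₁ e₂ e₃) Om).Nonsingular x y)
    (n' : (Affine.baseChange (crv e₁ e₂ e₃) Om).Nonsingular x' y') {j j' : ℕ}
    (hP : (2 ^ j) • (Affine.Point.some (x : Om) y n : Pt Om e₁ e₂ e₃) = 0)
    (hP' : (2 ^ j') • (Affine.Point.some (x' : Om) y' n' : Pt Om e₁ e₂ e₃) = 0)
    (hx : (x : Om) ≠ x') : w.valuation ((x : Om) - x') = 1 := by
  have h1 : ∀ {z : Om}, w.valuation z ≤ 1 → w.valuation z ≤ w.valuation (1 : Om) := fun hz => by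
    rwa [map_one]
  have inj := (algebraMap K Om).injective
  have hle : w.valuation ((x : Om) - x') ≤ 1 :=
    (ValuationSubring.valuation_le_one_iff w _).2 (sub_mem x.2 x'.2)
  have fin : ∀ {z : Om}, w.valuation z ≤ 1 → 1 ≤ w.valuation z ^ 2 → w.valuation z = 1 := by
    intro z hz hz2
    refine le_antisymm hz ?_
    by_contra hc
    push Not at hc
    exact absurd (pow_lt_one₀ zero_le hc two_ne_zero) (not_lt.2 hz2)
  by_cases hy : (y : Om) = 0
  · by_cases hy' : (y' : Om) = 0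
    · have hE := eqn baseChange_crv n
      have hE' := eqn baseChange_crv n'
      rw [hy, zero_pow two_ne_zero] at hE
      rw [hy', zero_pow two_ne_zero] at hE'
      have c := mul_eq_zero.1 hE.symm
      have c' := mul_eq_zero.1 hE'.symm
      rw [mul_eq_zero, sub_eq_zero, sub_eq_zero, sub_eq_zero] at c c'
      have v12 := h.v₁₂
      have v13 := h.v₁₃
      have v23 := h.v₂₃
      rw [map_sub] at v12 v13 v23
      rcases c with (c | c) | c <;> rcases c' with (c' | c') | c'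
      · exact absurd (c.trans c'.symm) hx
      · rw [c, c', v12]
      · rw [c, c', v13]
      · rw [c, c', Valuation.map_sub_swap, v12]
      · exact absurd (c.trans c'.symm) hx
      · rw [c, c', v23]
      · rw [c, c', Valuation.map_sub_swap, v13]
      · rw [c, c', Valuation.map_sub_swap, v23]
      · exact absurd (c.trans c'.symm) hx
    · have h5 := dist_ge (m := (1 : Om)) baseChange_crv h.two (h1 h.v₁) (h1 h.v₂) (h1 h.v₃)
        (inj.ne h.nek₁₂) (inj.ne h.nek₁₃) (inj.ne h.nek₂₃) n' n hy' hP' hP (Ne.symm hx)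
      rw [h.val_delta, map_one, one_pow, one_pow, one_mul, Valuation.map_sub_swap] at h5
      exact fin hle h5
  · have h5 := dist_ge (m := (1 : Om)) baseChange_crv h.two (h1 h.v₁) (h1 h.v₂) (h1 h.v₃)
      (inj.ne h.nek₁₂) (inj.ne h.nek₁₃) (inj.ne h.nek₂₃) n n' hy hP hP' hx
    rw [h.val_delta, map_one, one_pow, one_pow, one_mul] at h5
    exact fin hle h5

variable [DecidableEq κ]

/-- **Additivity of the reduction.** -/
theorem RedHyp.red_add (h : RedHyp w π e₁ e₂ e₃ a₁ a₂ a₃) {P Q : Pt Om e₁ e₂ e₃}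
    {P' Q' : Pt κ a₁ a₂ a₃} (hP : P ∈ VV Om e₁ e₂ e₃) (hQ : Q ∈ VV Om e₁ e₂ e₃)
    (rP : Red π P P') (rQ : Red π Q Q') : Red π (P + Q) (P' + Q') := by
  have rP0 := rP
  have rQ0 := rQ
  rcases rP with ⟨p1, p2⟩ | ⟨x, y, n, m, p1, p2⟩
  · rw [p1, p2, zero_add, zero_add]
    exact rQ
  rcases rQ with ⟨q1, q2⟩ | ⟨x', y', n', m', q1, q2⟩
  · rw [q1, q2, add_zero, add_zero]
    exact rP0
  obtain ⟨j, hj⟩ := hP
  obtain ⟨j', hj'⟩ := hQ
  rw [p1] at hj
  rw [q1] at hj'
  by_cases hx : (x : Om) = x'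
  · have hx' : x = x' := Subtype.ext hx
    subst hx'
    have hE := eqn baseChange_crv n
    have hE' := eqn baseChange_crv n'
    have hyy : (y : Om) ^ 2 = (y' : Om) ^ 2 := by rw [hE, hE']
    by_cases hneg : (y : Om) = -(y' : Om)
    · -- opposite points
      have hPQ : P = -Q := by
        rw [p1, q1, Affine.Point.neg_some, Affine.Point.some.injEq, negY_eq baseChange_crv]
        exact ⟨rfl, hneg⟩
      have hnegw : y = -y' := Subtype.ext hneg
      have hPQ' : P' = -Q' := by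
        rw [p2, q2, Affine.Point.neg_some, Affine.Point.some.injEq, negY_eq baseChange_crv, hnegw,
          map_neg]
        exact ⟨rfl, rfl⟩
      left
      rw [hPQ, hPQ', neg_add_cancel, neg_add_cancel]
      exact ⟨rfl, rfl⟩
    · -- doubling
      have hyeq : (y : Om) = y' := (sq_eq_sq_iff_eq_or_eq_neg.1 hyy).resolve_right hneg
      have hyw : y = y' := Subtype.ext hyeq
      subst hyw
      have hy0 : (y : Om) ≠ 0 := by
        intro h0
        apply hneg
        rw [h0, neg_zero]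
      have hyu := h.y_unit n hj hy0
      have h2y : w.valuation ((2 * y : w) : Om) = 1 := by
        change w.valuation ((2 : Om) * y) = 1
        rw [map_mul, h.two, hyu, one_mul]
      have hπ2y := h.unit h2y
      rw [map_mul, map_ofNat] at hπ2y
      have hd : (y : Om) ≠ (Affine.baseChange (crv e₁ e₂ e₃) Om).negY x y := by
        rw [negY_eq baseChange_crv]
        exact hneg
      have hd' : π y ≠ (Affine.baseChange (crv a₁ a₂ a₃) κ).negY (π x) (π y) := by
        rw [negY_eq baseChange_crv]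
        intro h0
        apply hπ2y
        linear_combination h0
      obtain ⟨ℓ, hl, hl'⟩ := h.lift_div (3 * x ^ 2 + 2 * (crv h.E₁ h.E₂ h.E₃).a₂ * x +
        (crv h.E₁ h.E₂ h.E₃).a₄) (2 * y) h2y
      rw [p1, p2, q1, q2]
      refine h.red_add_aux (ℓ := ℓ) n n' m m' (fun hh => hd hh.2) (fun hh => hd' hh.2) ?_ ?_
      · rw [Affine.slope_of_Y_ne rfl hd, negY_eq baseChange_crv, ← hl]
        congr 1
        · rw [h.mapOm]
          change 3 * (x : Om) ^ 2 + 2 * w.subtype (crv h.E₁ h.E₂ h.E₃).a₂ * x +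
            w.subtype (crv h.E₁ h.E₂ h.E₃).a₄ - w.subtype 0 * y = _
          rw [map_zero, zero_mul, sub_zero]
          rfl
        · change (y : Om) - -y = 2 * y
          ring
      · rw [Affine.slope_of_Y_ne rfl hd', negY_eq baseChange_crv, ← hl']
        congr 1
        · rw [h.mapκ]
          change 3 * (π x) ^ 2 + 2 * π (crv h.E₁ h.E₂ h.E₃).a₂ * π x +
            π (crv h.E₁ h.E₂ h.E₃).a₄ - π 0 * π y = _
          rw [map_zero, zero_mul, sub_zero, map_add, map_add, map_mul, map_mul, map_mul, map_pow,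
            map_ofNat, map_ofNat]
        · rw [map_mul, map_ofNat]
          ring
  · -- different `x`-coordinates
    have hu := h.x_unit n n' hj hj' hx
    have hu' : w.valuation ((x - x' : w) : Om) = 1 := hu
    have hπ := h.unit hu'
    rw [map_sub] at hπ
    have hπx : π x ≠ π x' := fun h0 => hπ (by rw [h0, sub_self])
    obtain ⟨ℓ, hl, hl'⟩ := h.lift_div (y - y') (x - x') hu'
    rw [p1, p2, q1, q2]
    refine h.red_add_aux (ℓ := ℓ) n n' m m' (fun hh => hx hh.1) (fun hh => hπx hh.1) ?_ ?_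
    · rw [Affine.slope_of_X_ne hx, ← hl]
      rfl
    · rw [Affine.slope_of_X_ne hπx, ← hl', map_sub, map_sub]

theorem RedHyp.red_nsmul (h : RedHyp w π e₁ e₂ e₃ a₁ a₂ a₃) {P : Pt Om e₁ e₂ e₃}
    {P' : Pt κ a₁ a₂ a₃} (hP : P ∈ VV Om e₁ e₂ e₃) (rP : Red π P P') (n : ℕ) :
    Red π (n • P) (n • P') := by
  induction n with
  | zero =>
    rw [zero_nsmul, zero_nsmul]
    exact Or.inl ⟨rfl, rfl⟩
  | succ n ih =>
    rw [succ_nsmul, succ_nsmul]
    exact h.red_add (AddSubgroup.nsmul_mem _ hP n) hP ih rP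

theorem RedHyp.red_zsmul (h : RedHyp w π e₁ e₂ e₃ a₁ a₂ a₃) {P : Pt Om e₁ e₂ e₃}
    {P' : Pt κ a₁ a₂ a₃} (hP : P ∈ VV Om e₁ e₂ e₃) (rP : Red π P P') (n : ℤ) :
    Red π (n • P) (n • P') := by
  rcases Int.eq_nat_or_neg n with ⟨m, rfl | rfl⟩
  · rw [natCast_zsmul, natCast_zsmul]
    exact h.red_nsmul hP rP m
  · rw [neg_zsmul, neg_zsmul, natCast_zsmul, natCast_zsmul]
    exact (h.red_nsmul hP rP m).neg

/-- the reduction and a Frobenius element -/
theorem RedHyp.red_frob [Fintype k] (h : RedHyp w π e₁ e₂ e₃ a₁ a₂ a₃) {φ : Om ≃ₐ[K] Om}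
    (hφ : φ ∈ dec K w) (hφ' : ∀ x ∈ w, w.valuation (φ x - x ^ Fintype.card k) < 1)
    {P : Pt Om e₁ e₂ e₃} {P' : Pt κ a₁ a₂ a₃} (rP : Red π P P') :
    Red π (φ • P) (Affine.Point.map (FiniteField.frobeniusAlgHom k κ) P') := by
  rcases rP with ⟨p1, p2⟩ | ⟨x, y, n, m, p1, p2⟩
  · left
    rw [p1, p2, smul_zero, map_zero]
    exact ⟨rfl, rfl⟩
  · have hmem : ∀ z : w, φ z ∈ w := fun z => ((mem_dec K).1 hφ z).2 z.2
    have hπ : ∀ z : w, π ⟨φ z, hmem z⟩ = π z ^ Fintype.card k := by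
      intro z
      have h1 := h.ker (⟨φ z, hmem z⟩ - z ^ Fintype.card k) (hφ' z z.2)
      rw [map_sub, map_pow, sub_eq_zero] at h1
      exact h1
    right
    obtain ⟨n', e⟩ := smul_some φ n
    have m' : (Affine.baseChange (crv a₁ a₂ a₃) κ).Nonsingular (π ⟨φ x, hmem x⟩)
        (π ⟨φ y, hmem y⟩) := by
      rw [hπ, hπ]
      exact ((crv a₁ a₂ a₃).toAffine.baseChange_nonsingular
        (FiniteField.frobeniusAlgHom k κ).injective (π x) (π y)).2 m
    refine ⟨⟨φ x, hmem x⟩, ⟨φ y, hmem y⟩, n', m', ?_, ?_⟩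
    · rw [p1, e]
    · rw [p2, Affine.Point.map_some, Affine.Point.some.injEq, hπ, hπ]
      exact ⟨rfl, rfl⟩

/-- **Hasse's relation for a Frobenius element at a place of good reduction**, on the 2-power
torsion. -/
theorem RedHyp.hasse [Fintype k] [IsSepClosed Om] (h : RedHyp w π e₁ e₂ e₃ a₁ a₂ a₃)
    {φ : Om ≃ₐ[K] Om} (hφ : φ ∈ dec K w)
    (hφ' : ∀ x ∈ w, w.valuation (φ x - x ^ Fintype.card k) < 1) :
    ∃ t : ℤ, t ^ 2 ≤ 4 * Fintype.card k ∧ ∀ Q : VV Om e₁ e₂ e₃,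
      φ • (φ • Q) - t • (φ • Q) + (Fintype.card k : ℤ) • Q = 0 := by
  obtain ⟨t, ht, h5⟩ := hasse_crv_double h.twok_ne h.ne₁₂ h.ne₁₃ h.ne₂₃ κ
  refine ⟨t, ht, fun Q => ?_⟩
  have h2K : (2 : K) ≠ 0 := by
    intro h0
    have h1 := h.two
    rw [← map_ofNat (algebraMap K Om), h0, map_zero, map_zero] at h1
    exact zero_ne_one h1
  obtain ⟨R, hR⟩ := half_VV h2K h.nek₁₂ h.nek₁₃ h.nek₂₃ Q
  obtain ⟨j, hj⟩ := R.2
  obtain ⟨R', rR⟩ := h.exists_red (κ := κ) hj
  have rQ : Red π Q.1 (R' + R') := by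
    have : Q.1 = R.1 + R.1 := by
      rw [← hR, two_nsmul]
      rfl
    rw [this]
    exact h.red_add R.2 R.2 rR rR
  have rF := h.red_frob hφ hφ' rQ
  have rFF := h.red_frob hφ hφ' rF
  have hF : φ • Q.1 ∈ VV Om e₁ e₂ e₃ := smul_mem_VV φ Q.2
  have hFF : φ • φ • Q.1 ∈ VV Om e₁ e₂ e₃ := smul_mem_VV φ hF
  have r1 := h.red_zsmul hF rF t
  have r2 := h.red_zsmul Q.2 rQ (Fintype.card k : ℤ)
  have r3 := h.red_add hFF (neg_mem (AddSubgroup.zsmul_mem _ hF t)) rFF r1.neg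
  have r4 := h.red_add (add_mem hFF (neg_mem (AddSubgroup.zsmul_mem _ hF t)))
    (AddSubgroup.zsmul_mem _ Q.2 (Fintype.card k : ℤ)) r3 r2
  rw [← sub_eq_add_neg, ← sub_eq_add_neg, h5 _ R' rfl] at r4
  exact Subtype.ext r4.zero_left

end red

end Pool.Agent.TTC.H
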