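import Mathlib

/-!
TTC, block H (Hasse on `T_2`), part 1: the addition-and-subtraction map on `x`-coordinates
(Mathlib's `addSubMap`) does what it should, for `a₁ = a₃ = 0`, `2 ≠ 0`.
-/

set_option autoImplicit false

namespace Pool.Agent.TTC.H

open WeierstrassCurve MvPolynomial

/-- the values of `addSubMap` -/
noncomputable def asub {R : Type} [CommRing R] (W : WeierstrassCurve R) (v : Fin 3 → R) :
    Fin 3 → R := fun i => (W.addSubMap i).eval v

section ring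

variable {R : Type} [CommRing R] (W : WeierstrassCurve R) (v : Fin 3 → R)

theorem asub_zero : asub W v 0 =
    v 0 ^ 2 - W.b₄ * v 0 * v 2 - W.b₆ * v 1 * v 2 - W.b₈ * v 2 ^ 2 := by
  simp [asub, addSubMap]

theorem asub_one : asub W v 1 =
    2 * v 1 * v 0 + W.b₂ * v 0 * v 2 + W.b₄ * v 1 * v 2 + W.b₆ * v 2 ^ 2 := by
  simp [asub, addSubMap]

theorem asub_two : asub W v 2 = v 1 ^ 2 - 4 * v 0 * v 2 := by
  simp [asub, addSubMap]

theorem asub_eq : asub W v =
    ![v 0 ^ 2 - W.b₄ * v 0 * v 2 - W.b₆ * v 1 * v 2 - W.b₈ * v 2 ^ 2,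
      2 * v 1 * v 0 + W.b₂ * v 0 * v 2 + W.b₄ * v 1 * v 2 + W.b₆ * v 2 ^ 2,
      v 1 ^ 2 - 4 * v 0 * v 2] := by
  funext i
  fin_cases i
  · exact asub_zero W v
  · exact asub_one W v
  · exact asub_two W v

/-- homogeneity -/
theorem asub_smul (c : R) : asub W (c • v) = c ^ 2 • asub W v := by
  rw [asub_eq, asub_eq]
  funext i
  fin_cases i <;> simp <;> ring

end ring

section field

variable {F : Type} [Field F] [DecidableEq F] (W : WeierstrassCurve F)

omit [DecidableEq F] in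
private theorem rel_ne {x₁ y₁ x₂ y₂ : F} (h1 : W.a₁ = 0) (h3 : W.a₃ = 0)
    (e₁ : y₁ ^ 2 = x₁ ^ 3 + W.a₂ * x₁ ^ 2 + W.a₄ * x₁ + W.a₆)
    (e₂ : y₂ ^ 2 = x₂ ^ 3 + W.a₂ * x₂ ^ 2 + W.a₄ * x₂ + W.a₆) (hx : x₁ ≠ x₂) {l m x₃ x₄ : F}
    (hl : l * (x₁ - x₂) = y₁ - y₂) (hm : m * (x₁ - x₂) = y₁ + y₂)
    (h₃ : x₃ = l ^ 2 - W.a₂ - x₁ - x₂) (h₄ : x₄ = m ^ 2 - W.a₂ - x₁ - x₂) :
    asub W ![x₁ * x₂, x₁ + x₂, 1] = (x₁ - x₂) ^ 2 • ![x₃ * x₄, x₃ + x₄, 1] := by
  have hx0 : x₁ - x₂ ≠ 0 := sub_ne_zero.mpr hx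
  have A3 : (x₁ - x₂) ^ 2 * x₃ = (y₁ - y₂) ^ 2 - (W.a₂ + x₁ + x₂) * (x₁ - x₂) ^ 2 := by
    rw [h₃]
    linear_combination (l * (x₁ - x₂) + (y₁ - y₂)) * hl
  have A4 : (x₁ - x₂) ^ 2 * x₄ = (y₁ + y₂) ^ 2 - (W.a₂ + x₁ + x₂) * (x₁ - x₂) ^ 2 := by
    rw [h₄]
    linear_combination (m * (x₁ - x₂) + (y₁ + y₂)) * hm
  rw [asub_eq]
  simp only [WeierstrassCurve.b₂, WeierstrassCurve.b₄, WeierstrassCurve.b₆, WeierstrassCurve.b₈,
    h1, h3]
  funext i
  fin_cases i
  · simp only [Fin.zero_eta, Fin.isValue, Matrix.cons_val_zero, Matrix.cons_val_one,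
      Matrix.cons_val, Pi.smul_apply, smul_eq_mul]
    apply mul_left_cancel₀ (pow_ne_zero 2 hx0)
    have e : (x₁ - x₂) ^ 2 * ((x₁ - x₂) ^ 2 * (x₃ * x₄)) =
      ((x₁ - x₂) ^ 2 * x₃) * ((x₁ - x₂) ^ 2 * x₄) := by ring
    rw [e, A3, A4]
    linear_combination
      (-(y₁ ^ 2 - y₂ ^ 2 + (x₁ ^ 3 + W.a₂ * x₁ ^ 2 + W.a₄ * x₁ + W.a₆) -
        (x₂ ^ 3 + W.a₂ * x₂ ^ 2 + W.a₄ * x₂ + W.a₆)) +
        2 * ((W.a₂ + x₁ + x₂) * (x₁ - x₂) ^ 2)) * e₁ +
      ((y₁ ^ 2 - y₂ ^ 2 + (x₁ ^ 3 + W.a₂ * x₁ ^ 2 + W.a₄ * x₁ + W.a₆) -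
        (x₂ ^ 3 + W.a₂ * x₂ ^ 2 + W.a₄ * x₂ + W.a₆)) +
        2 * ((W.a₂ + x₁ + x₂) * (x₁ - x₂) ^ 2)) * e₂
  · simp only [Fin.mk_one, Fin.isValue, Matrix.cons_val_zero, Matrix.cons_val_one,
      Matrix.cons_val, Pi.smul_apply, smul_eq_mul]
    rw [show (x₁ - x₂) ^ 2 * (x₃ + x₄) = (x₁ - x₂) ^ 2 * x₃ + (x₁ - x₂) ^ 2 * x₄ by ring, A3, A4]
    linear_combination -2 * e₁ - 2 * e₂
  · simp only [Fin.reduceFinMk, Matrix.cons_val_zero, Matrix.cons_val_one,
      Matrix.cons_val, Pi.smul_apply, smul_eq_mul]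
    ring

omit [DecidableEq F] in
private theorem rel_dbl {x y l x₃ : F} (h1 : W.a₁ = 0) (h3 : W.a₃ = 0)
    (e : y ^ 2 = x ^ 3 + W.a₂ * x ^ 2 + W.a₄ * x + W.a₆)
    (hl : l * (2 * y) = 3 * x ^ 2 + 2 * W.a₂ * x + W.a₄)
    (h₃ : x₃ = l ^ 2 - W.a₂ - x - x) :
    asub W ![x * x, x + x, 1] = (2 * y) ^ 2 • ![x₃, 1, 0] := by
  have A3 : (2 * y) ^ 2 * x₃ = (3 * x ^ 2 + 2 * W.a₂ * x + W.a₄) ^ 2 -
      (W.a₂ + x + x) * (2 * y) ^ 2 := by
    rw [h₃]
    linear_combination (l * (2 * y) + (3 * x ^ 2 + 2 * W.a₂ * x + W.a₄)) * hl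
  rw [asub_eq]
  simp only [WeierstrassCurve.b₂, WeierstrassCurve.b₄, WeierstrassCurve.b₆, WeierstrassCurve.b₈,
    h1, h3]
  funext i
  fin_cases i
  · simp only [Fin.zero_eta, Fin.isValue, Matrix.cons_val_zero, Matrix.cons_val_one,
      Matrix.cons_val, Pi.smul_apply, smul_eq_mul]
    rw [A3]
    linear_combination 4 * (W.a₂ + x + x) * e
  · simp only [Fin.mk_one, Fin.isValue, Matrix.cons_val_zero, Matrix.cons_val_one,
      Matrix.cons_val, Pi.smul_apply, smul_eq_mul]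
    linear_combination -4 * e
  · simp only [Fin.reduceFinMk, Matrix.cons_val_zero, Matrix.cons_val_one,
      Matrix.cons_val, Pi.smul_apply, smul_eq_mul]
    ring

omit [DecidableEq F] in
theorem negY_zero (h1 : W.a₁ = 0) (h3 : W.a₃ = 0) (x y : F) : W.toAffine.negY x y = -y := by
  rw [WeierstrassCurve.Affine.negY]
  simp [h1, h3]

omit [DecidableEq F] in
theorem equation_zero (h1 : W.a₁ = 0) (h3 : W.a₃ = 0) (x y : F) : W.toAffine.Equation x y ↔
    y ^ 2 = x ^ 3 + W.a₂ * x ^ 2 + W.a₄ * x + W.a₆ := by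
  rw [WeierstrassCurve.Affine.equation_iff, h1, h3]
  constructor <;> intro h <;> linear_combination h

/-- the relation between the `x`-coordinates of `P`, `Q`, `P + Q`, `P - Q` -/
theorem rel [W.IsElliptic] (h1 : W.a₁ = 0) (h3 : W.a₃ = 0) (h2 : (2 : F) ≠ 0)
    (P Q : W.toAffine.Point) :
    ∃ c : F, c ≠ 0 ∧ asub W (P.sym2x Q) = c • (P + Q).sym2x (P - Q) := by
  have hz : ∀ x : F, asub W ![x, 1, 0] = ![x * x, x + x, 1] := by
    intro x
    rw [asub_eq]
    funext i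
    fin_cases i <;> simp <;> ring
  rcases P with _ | ⟨x₁, y₁, n₁⟩
  · rw [← Affine.Point.zero_def, zero_add, zero_sub, Affine.Point.sym2x_neg_right]
    rcases Q with _ | ⟨x₂, y₂, n₂⟩
    · refine ⟨1, one_ne_zero, ?_⟩
      rw [← Affine.Point.zero_def, Affine.Point.sym2x_zero_zero, one_smul, asub_eq]
      funext i
      fin_cases i <;> simp
    · refine ⟨1, one_ne_zero, ?_⟩
      rw [Affine.Point.sym2x_zero_some, Affine.Point.sym2x_some_some, one_smul, hz]
  rcases Q with _ | ⟨x₂, y₂, n₂⟩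
  · rw [← Affine.Point.zero_def, add_zero, sub_zero]
    refine ⟨1, one_ne_zero, ?_⟩
    rw [Affine.Point.sym2x_some_zero, Affine.Point.sym2x_some_some, one_smul, hz]
  have e₁ := (equation_zero W h1 h3 x₁ y₁).1 n₁.1
  have e₂ := (equation_zero W h1 h3 x₂ y₂).1 n₂.1
  by_cases hx : x₁ = x₂
  · subst hx
    have hyy : y₁ = y₂ ∨ y₁ = -y₂ := by
      have : y₁ ^ 2 = y₂ ^ 2 := by rw [e₁, e₂]
      exact sq_eq_sq_iff_eq_or_eq_neg.1 this
    -- the double of a point
    have dbl : ∀ (x y : F) (n : W.toAffine.Nonsingular x y), ∃ c : F, c ≠ 0 ∧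
        asub W ![x * x, x + x, 1] =
          c • (Affine.Point.some x y n + Affine.Point.some x y n).sym2x 0 := by
      intro x y n
      have e := (equation_zero W h1 h3 x y).1 n.1
      by_cases hy : y = 0
      · have h0 : Affine.Point.some x y n + Affine.Point.some x y n = 0 := by
          apply Affine.Point.add_self_of_Y_eq
          rw [negY_zero W h1 h3, hy, neg_zero]
        rw [h0, Affine.Point.sym2x_zero_zero]
        have hne := W.addSubMap_ne_zero (x := ![x * x, x + x, 1]) (by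
          intro h
          have := congrFun h 2
          simp at this)
        have e1 : asub W ![x * x, x + x, 1] 1 = 0 := by
          rw [asub_one]
          simp only [WeierstrassCurve.b₂, WeierstrassCurve.b₄, WeierstrassCurve.b₆, h1, h3,
            Fin.isValue, Matrix.cons_val_zero, Matrix.cons_val_one, Matrix.cons_val]
          rw [hy] at e
          linear_combination -4 * e
        have e2 : asub W ![x * x, x + x, 1] 2 = 0 := by
          rw [asub_two]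
          simp only [Fin.isValue, Matrix.cons_val_zero, Matrix.cons_val_one, Matrix.cons_val]
          ring
        refine ⟨asub W ![x * x, x + x, 1] 0, ?_, ?_⟩
        · intro e0
          apply hne
          funext i
          fin_cases i
          · exact e0
          · exact e1
          · exact e2
        · funext i
          fin_cases i
          · simp
          · simpa using e1
          · simpa using e2
      · have hy' : y ≠ W.toAffine.negY x y := by
          rw [negY_zero W h1 h3]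
          intro h
          have h5 : 2 * y = 0 := by linear_combination h
          exact hy ((mul_eq_zero.1 h5).resolve_left h2)
        have h2y : 2 * y ≠ 0 := mul_ne_zero h2 hy
        refine ⟨(2 * y) ^ 2, pow_ne_zero 2 h2y, ?_⟩
        rw [Affine.Point.add_self_of_Y_ne hy', Affine.Point.sym2x_some_zero]
        refine rel_dbl W h1 h3 e (l := W.toAffine.slope x x y y) ?_ ?_
        · have h2y' : y - -y ≠ 0 := by rwa [sub_neg_eq_add, ← two_mul]
          rw [WeierstrassCurve.Affine.slope_of_Y_ne rfl hy', negY_zero W h1 h3, h1,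
            div_mul_eq_mul_div, div_eq_iff h2y']
          ring
        · rw [WeierstrassCurve.Affine.addX, h1]
          ring
    rcases hyy with hyy | hyy
    · subst hyy
      obtain ⟨c, hc, h⟩ := dbl x₁ y₁ n₁
      exact ⟨c, hc, by rw [Affine.Point.sym2x_some_some, sub_self]; exact h⟩
    · obtain ⟨c, hc, h⟩ := dbl x₁ y₁ n₁
      have hQ : Affine.Point.some x₁ y₂ n₂ = -Affine.Point.some x₁ y₁ n₁ := by
        rw [Affine.Point.neg_some]
        congr 1
        rw [negY_zero W h1 h3, hyy, neg_neg]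
      refine ⟨c, hc, ?_⟩
      rw [Affine.Point.sym2x_some_some, hQ, add_neg_cancel, sub_neg_eq_add,
        Affine.Point.sym2x_comm]
      exact h
  · have hx0 : x₁ - x₂ ≠ 0 := sub_ne_zero.mpr hx
    refine ⟨(x₁ - x₂) ^ 2, pow_ne_zero 2 hx0, ?_⟩
    rw [sub_eq_add_neg (Affine.Point.some x₁ y₁ n₁), Affine.Point.neg_some,
      Affine.Point.add_of_X_ne hx,
      Affine.Point.add_of_X_ne hx, Affine.Point.sym2x_some_some, Affine.Point.sym2x_some_some]
    refine rel_ne W h1 h3 e₁ e₂ hx (l := W.toAffine.slope x₁ x₂ y₁ y₂)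
      (m := W.toAffine.slope x₁ x₂ y₁ (W.toAffine.negY x₂ y₂)) ?_ ?_ ?_ ?_
    · rw [WeierstrassCurve.Affine.slope_of_X_ne hx]
      field_simp
    · rw [WeierstrassCurve.Affine.slope_of_X_ne hx, negY_zero W h1 h3]
      field_simp
      ring
    · rw [WeierstrassCurve.Affine.addX, h1]
      ring
    · rw [WeierstrassCurve.Affine.addX, h1]
      ring

end field

end Pool.Agent.TTC.H
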